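import Mathlib

set_option autoImplicit false

namespace Pool.Agent.MPd89fb5

open Finset
open scoped Classical

variable {V : Type}

/-- number of neighbours of `a` in `B` -/
noncomputable def dg (G : SimpleGraph V) (a : V) (B : Finset V) : ℕ := (B.filter (fun b => G.Adj a b)).card

/-- number of ordered adjacent pairs in `A × B` -/
noncomputable def E (G : SimpleGraph V) (A B : Finset V) : ℕ := ∑ a ∈ A, dg G a B

lemma dg_le (G : SimpleGraph V) (a : V) (B : Finset V) : dg G a B ≤ B.card := card_filter_le _ _

lemma dg_union (G : SimpleGraph V) (a : V) {B C : Finset V} (h : Disjoint B C) :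
    dg G a (B ∪ C) = dg G a B + dg G a C := by
  unfold dg
  rw [filter_union, card_union_of_disjoint (disjoint_filter_filter h)]

lemma dg_mono (G : SimpleGraph V) (a : V) {B C : Finset V} (h : B ⊆ C) : dg G a B ≤ dg G a C :=
  card_le_card (filter_subset_filter _ h)

lemma dg_insert (G : SimpleGraph V) (a b : V) {B : Finset V} (h : b ∉ B) :
    dg G a (insert b B) = dg G a B + if G.Adj a b then 1 else 0 := by
  unfold dg
  rw [filter_insert]
  split_ifs with hh
  · rw [card_insert_of_notMem]
    simp [h]
  · simp

lemma dg_insert_self (G : SimpleGraph V) (a : V) (B : Finset V) :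
    dg G a (insert a B) = dg G a B := by
  by_cases h : a ∈ B
  · rw [insert_eq_of_mem h]
  · rw [dg_insert G a a h]; simp

lemma E_symm (G : SimpleGraph V) (A B : Finset V) : E G A B = E G B A := by
  unfold E dg
  have := Finset.sum_card_bipartiteAbove_eq_sum_card_bipartiteBelow (s := A) (t := B) (fun a b => G.Adj a b)
  unfold Finset.bipartiteAbove Finset.bipartiteBelow at this
  rw [this]
  apply sum_congr rfl
  intro b _
  congr 1
  apply filter_congr
  intro a _
  exact G.adj_comm _ _

lemma E_union_left (G : SimpleGraph V) {A B : Finset V} (C : Finset V) (h : Disjoint A B) :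
    E G (A ∪ B) C = E G A C + E G B C := sum_union h

lemma E_union_right (G : SimpleGraph V) (C : Finset V) {A B : Finset V} (h : Disjoint A B) :
    E G C (A ∪ B) = E G C A + E G C B := by
  rw [E_symm, E_union_left G C h, E_symm G A, E_symm G B]

lemma E_le (G : SimpleGraph V) (A B : Finset V) : E G A B ≤ A.card * B.card := by
  unfold E
  calc ∑ a ∈ A, dg G a B ≤ ∑ a ∈ A, B.card := sum_le_sum (fun a _ => dg_le G a B)
    _ = A.card * B.card := by simp

lemma E_self_union (G : SimpleGraph V) {A B : Finset V} (h : Disjoint A B) :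
    E G (A ∪ B) (A ∪ B) = E G A A + 2 * E G A B + E G B B := by
  rw [E_union_left G _ h, E_union_right G _ h, E_union_right G _ h, E_symm G B A]
  ring

lemma E_singleton (G : SimpleGraph V) (a : V) (B : Finset V) : E G {a} B = dg G a B := by
  simp [E]

lemma E_self_singleton (G : SimpleGraph V) (a : V) : E G {a} {a} = 0 := by
  simp [E, dg, filter_singleton]

lemma E_insert (G : SimpleGraph V) {a : V} {B : Finset V} (h : a ∉ B) :
    E G (insert a B) (insert a B) = E G B B + 2 * dg G a B := by
  have : insert a B = {a} ∪ B := rfl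
  rw [this, E_self_union G (by simpa using h), E_self_singleton, E_singleton]
  ring

lemma E_erase (G : SimpleGraph V) {a : V} {B : Finset V} (h : a ∈ B) :
    E G B B = E G (B.erase a) (B.erase a) + 2 * dg G a B := by
  have h1 := E_insert G (notMem_erase a B)
  rw [insert_erase h] at h1
  have h2 : dg G a B = dg G a (B.erase a) := by
    conv_lhs => rw [← insert_erase h]
    rw [dg_insert_self]
  rw [h1, h2]

lemma dg_self_lt (G : SimpleGraph V) {a : V} {B : Finset V} (h : a ∈ B) :
    dg G a B + 1 ≤ B.card := by
  have h2 : dg G a B = dg G a (B.erase a) := by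
    conv_lhs => rw [← insert_erase h]
    rw [dg_insert_self]
  have h3 := dg_le G a (B.erase a)
  rw [card_erase_of_mem h] at h3
  have : 0 < B.card := card_pos.2 ⟨a, h⟩
  omega

lemma E_self_le (G : SimpleGraph V) (A : Finset V) : E G A A ≤ A.card * (A.card - 1) := by
  unfold E
  calc ∑ a ∈ A, dg G a A ≤ ∑ a ∈ A, (A.card - 1) := sum_le_sum (fun a ha => by
        have := dg_self_lt G ha
        omega)
    _ = A.card * (A.card - 1) := by simp

lemma E_mono (G : SimpleGraph V) {A A' B B' : Finset V} (h : A ⊆ A') (h' : B ⊆ B') :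
    E G A B ≤ E G A' B' := by
  unfold E
  calc ∑ a ∈ A, dg G a B ≤ ∑ a ∈ A, dg G a B' := sum_le_sum (fun a _ => dg_mono G a h')
    _ ≤ ∑ a ∈ A', dg G a B' := sum_le_sum_of_subset h

end Pool.Agent.MPd89fb5
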