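import Pool.Agent.Lib.MP_d89fb5_co.Pack

set_option autoImplicit false

namespace Pool.Agent.MPd89fb5

open Finset
open scoped Classical

variable {V : Type}

/-- an optimal configuration -/
structure Conf (G : SimpleGraph V) (s j : ℕ) (A : Finset V) where
  l : ℕ
  d : ZMod l → V
  C : Finset V
  D : Finset V
  R : Finset V
  U : Finset V
  c0 : V
  φ : ℕ
  l_pos : 1 ≤ l
  l_le : l ≤ 2 * s - 1
  isC : IsC G d
  memD : ∀ x, x ∈ D ↔ ∃ i, d i = x
  hA : A = C ∪ (D ∪ (R ∪ U))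
  dC : Disjoint C (D ∪ (R ∪ U))
  dD : Disjoint D (R ∪ U)
  dR : Disjoint R U
  cardU : U.card = 2 * s * (j - 1)
  gcC : GC G (2 * s) C
  cardA : A.card = 2 * s * j + l + R.card
  φ_le : φ ≤ 2 * s
  φ1 : E G C R ≤ s * R.card + (s - 1) * φ
  φ2 : E G C D + (l - l / 2) * φ ≤ 2 * s * l
  φ3 : (R.filter (fun x => s + 1 ≤ dg G x C)).card ≤ 2 * s - 2
  hmax : ∀ n S, S ⊆ D ∪ R → GC G n S → n ≤ 2 * s → n ≤ l
  c0C : c0 ∈ C
  c0T : TT G d c0

lemma Pack.disj_biUnion {Φ : Finset V → Prop} {j : ℕ} {A : Finset V} {P : Finset (Finset V)}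
    (_h : Pack Φ j A P) {S : Finset V} (hS : S ⊆ A \ P.biUnion id) : ∀ T ∈ P, Disjoint S T := by
  intro T hT
  rw [Finset.disjoint_left]
  intro x hx hxT
  have := (mem_sdiff.1 (hS hx)).2
  apply this
  rw [mem_biUnion]
  exact ⟨T, hT, hxT⟩

/-- existence of a vertex outside the generalised cycle adjacent to two consecutive vertices -/
lemma exists_TT {G : SimpleGraph V} {s l : ℕ} {A D : Finset V} {d : ZMod l → V} (hl : 1 ≤ l)
    (hl2 : l ≤ 2 * s - 1) (hd : IsC G d) (hD : ∀ x, x ∈ D ↔ ∃ i, d i = x) (hDA : D ⊆ A)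
    (hdeg : ∀ v ∈ A, 1 ≤ dg G v A)
    (hcod : ∀ u ∈ A, ∀ v ∈ A, G.Adj u v → 2 * s - 2 ≤ cod G u v A) :
    ∃ z ∈ A, z ∉ D ∧ TT G d z := by
  have : NeZero l := ⟨by omega⟩
  have hDc : D.card = l := by
    have : D = univ.image d := by
      ext x; rw [hD, mem_image]; simp
    rw [this, card_image_of_injective _ hd.inj, card_univ, ZMod.card]
  have hd0 : d 0 ∈ D := (hD _).2 ⟨0, rfl⟩
  have hd1 : d (0 + 1) ∈ D := (hD _).2 ⟨_, rfl⟩
  by_cases hl1 : l = 1
  · obtain ⟨z, hz⟩ := card_pos.1 (hdeg (d 0) (hDA hd0))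
    rw [mem_filter] at hz
    refine ⟨z, hz.1, ?_, ?_⟩
    · intro hzD
      obtain ⟨i, rfl⟩ := (hD z).1 hzD
      subst hl1
      have : i = 0 := Subsingleton.elim _ _
      rw [this] at hz
      exact G.irrefl hz.2
    · refine ⟨0, hz.2.symm, ?_⟩
      subst hl1
      have : (0 : ZMod 1) + 1 = 0 := Subsingleton.elim _ _
      rw [this]
      exact hz.2.symm
  · have hadj := hd.adj' hl1 0
    have h1 := hcod (d 0) (hDA hd0) (d (0 + 1)) (hDA hd1) hadj
    by_contra hcon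
    push Not at hcon
    have h2 : A.filter (fun x => G.Adj (d 0) x ∧ G.Adj (d (0 + 1)) x) ⊆ (D.erase (d 0)).erase (d (0 + 1)) := by
      intro x hx
      rw [mem_filter] at hx
      rw [mem_erase, mem_erase]
      refine ⟨hx.2.2.ne', hx.2.1.ne', ?_⟩
      by_contra hxD
      exact hcon x hx.1 hxD ⟨0, hx.2.1.symm, hx.2.2.symm⟩
    have h3 := card_le_card h2
    rw [card_erase_of_mem (mem_erase.2 ⟨hadj.ne', hd1⟩), card_erase_of_mem hd0, hDc] at h3
    have h4 : cod G (d 0) (d (0 + 1)) A ≤ l - 1 - 1 := h3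
    omega

theorem exists_config (G : SimpleGraph V) {s k j : ℕ} (hs : 3 ≤ s) (hj : j < k) {A : Finset V}
    (hA : 2 * s * k ≤ A.card) (hdeg : ∀ v ∈ A, 1 ≤ dg G v A)
    (hcod : ∀ u ∈ A, ∀ v ∈ A, G.Adj u v → 2 * s - 2 ≤ cod G u v A)
    (hP : ∃ P, Pack (GC G (2 * s)) j A P) (hno : ¬ ∃ P, Pack (GC G (2 * s)) (j + 1) A P) :
    1 ≤ j ∧ Nonempty (Conf G s j A) := by
  let Q : ℕ → Prop := fun l => ∃ P S, Pack (GC G (2 * s)) j A P ∧ S ⊆ A \ P.biUnion id ∧ GC G l S
  have hPA : ∀ P, Pack (GC G (2 * s)) j A P → P.biUnion id ⊆ A := by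
    intro P hP x hx
    rw [mem_biUnion] at hx
    obtain ⟨T, hT, hx⟩ := hx
    exact hP.sub T hT hx
  have hjk : 2 * s * j + 2 * s ≤ 2 * s * k := by
    have : 2 * s * (j + 1) ≤ 2 * s * k := Nat.mul_le_mul_left _ hj
    linarith
  have hQ1 : Q 1 := by
    obtain ⟨P, hP⟩ := hP
    have h1 : 0 < (A \ P.biUnion id).card := by
      rw [card_sdiff_of_subset (hPA P hP), hP.card_biUnion]
      omega
    obtain ⟨x, hx⟩ := card_pos.1 h1
    exact ⟨P, {x}, hP, by simpa using hx, GC_singleton G x⟩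
  have hfg1 : 1 ≤ Nat.findGreatest Q (2 * s) := Nat.le_findGreatest (by omega) hQ1
  have hfgQ : Q (Nat.findGreatest Q (2 * s)) := Nat.findGreatest_spec (P := Q) (m := 1) (by omega) hQ1
  have hfgmax : ∀ n, n ≤ 2 * s → Q n → n ≤ Nat.findGreatest Q (2 * s) :=
    fun n hn hQ => Nat.le_findGreatest hn hQ
  have hfgle := Nat.findGreatest_le (P := Q) (2 * s)
  obtain ⟨l, hl⟩ : ∃ l, l = Nat.findGreatest Q (2 * s) := ⟨_, rfl⟩
  rw [← hl] at hfg1 hfgQ hfgmax hfgle
  obtain ⟨P, D, hP, hDs, hDG⟩ := hfgQ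
  have hl2 : l ≤ 2 * s - 1 := by
    by_contra hcon
    have : l = 2 * s := by omega
    rw [this] at hDG
    exact hno ⟨_, hP.insert (hDs.trans sdiff_subset) hDG hDG.nonempty (hP.disj_biUnion hDs)⟩
  have : NeZero l := ⟨by omega⟩
  obtain ⟨d, hd, hD⟩ := hDG.exists_zmod
  have hDA : D ⊆ A := hDs.trans sdiff_subset
  obtain ⟨z, hzA, hzD, hzT⟩ := exists_TT hfg1 hl2 hd hD hDA hdeg hcod
  have hzP : z ∈ P.biUnion id := by
    by_contra hzP
    obtain ⟨p, hp1, hp2⟩ := hzT
    have h1 := hd.insert (by omega) hD hzD hp1 hp2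
    have h2 := hfgmax (l + 1) (by omega) ⟨P, _, hP, (by
      intro y hy
      rw [mem_insert] at hy
      rcases hy with rfl | hy
      · exact mem_sdiff.2 ⟨hzA, hzP⟩
      · exact hDs hy), h1⟩
    omega
  rw [mem_biUnion] at hzP
  obtain ⟨C, hCP, hzC⟩ := hzP
  rw [id] at hzC
  obtain ⟨j', rfl⟩ : ∃ j', j = j' + 1 := by
    have := card_pos.2 ⟨C, hCP⟩
    rw [hP.card] at this
    exact ⟨j - 1, by omega⟩
  refine ⟨by omega, ?_⟩
  have hPe := hP.erase hCP
  set U := (P.erase C).biUnion id with hU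
  set R := (A \ P.biUnion id) \ D with hR
  have hUP : P.biUnion id = C ∪ U := by
    conv_lhs => rw [← insert_erase hCP]
    rw [biUnion_insert]
    rfl
  have hUA : U ⊆ A := by
    intro x hx
    rw [hU, mem_biUnion] at hx
    obtain ⟨T, hT, hx⟩ := hx
    exact hPe.sub T hT hx
  have hCA : C ⊆ A := hP.sub C hCP
  have hCU : Disjoint C U := by
    rw [Finset.disjoint_left]
    intro x hx hxU
    rw [hU, mem_biUnion] at hxU
    obtain ⟨T, hT, hxT⟩ := hxU
    rw [mem_erase] at hT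
    exact Finset.disjoint_left.1 (hP.disj C hCP T hT.2 (Ne.symm hT.1)) hx hxT
  have hDnP : ∀ x ∈ D, x ∉ C ∧ x ∉ U := by
    intro x hx
    have := (mem_sdiff.1 (hDs hx)).2
    rw [hUP, mem_union] at this
    push Not at this
    exact this
  have hRmem : ∀ x, x ∈ R ↔ x ∈ A ∧ x ∉ C ∧ x ∉ U ∧ x ∉ D := by
    intro x
    rw [hR, mem_sdiff, mem_sdiff, hUP, mem_union]
    push Not
    tauto
  have hAeq : A = C ∪ (D ∪ (R ∪ U)) := by
    ext x
    rw [mem_union, mem_union, mem_union, hRmem]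
    constructor
    · intro hx
      by_cases h1 : x ∈ C
      · exact Or.inl h1
      · by_cases h2 : x ∈ D
        · exact Or.inr (Or.inl h2)
        · by_cases h3 : x ∈ U
          · exact Or.inr (Or.inr (Or.inr h3))
          · exact Or.inr (Or.inr (Or.inl ⟨hx, h1, h3, h2⟩))
    · rintro (h | h | h | h)
      · exact hCA h
      · exact hDA h
      · exact h.1
      · exact hUA h
  have hdC : Disjoint C (D ∪ (R ∪ U)) := by
    rw [disjoint_union_right, disjoint_union_right]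
    refine ⟨?_, ?_, hCU⟩
    · rw [Finset.disjoint_left]
      intro x hx hxD
      exact (hDnP x hxD).1 hx
    · rw [Finset.disjoint_left]
      intro x hx hxR
      exact ((hRmem x).1 hxR).2.1 hx
  have hdD : Disjoint D (R ∪ U) := by
    rw [disjoint_union_right]
    constructor
    · rw [Finset.disjoint_left]
      intro x hx hxR
      exact ((hRmem x).1 hxR).2.2.2 hx
    · rw [Finset.disjoint_left]
      intro x hx hxU
      exact (hDnP x hx).2 hxU
  have hdR : Disjoint R U := by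
    rw [Finset.disjoint_left]
    intro x hx hxU
    exact ((hRmem x).1 hx).2.2.1 hxU
  have hCc : C.card = 2 * s := (hP.good C hCP).card
  have hUc : U.card = 2 * s * j' := hPe.card_biUnion
  have hDc : D.card = l := hDG.card
  have hAc : A.card = 2 * s * (j' + 1) + l + R.card := by
    conv_lhs => rw [hAeq]
    rw [card_union_of_disjoint hdC, card_union_of_disjoint hdD, card_union_of_disjoint hdR, hCc, hUc, hDc]
    ring
  have hF : ∀ x ∈ C, TT G d x → ¬ ∃ S ⊆ C.erase x ∪ R, GC G (2 * s) S := by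
    rintro x hxC ⟨p, hp1, hp2⟩ ⟨S, hS, hSG⟩
    have hxD : x ∉ D := fun h => (hDnP x h).1 hxC
    have hSmem : ∀ y ∈ S, y ∈ A ∧ y ∉ D ∧ y ∉ U ∧ y ≠ x := by
      intro y hy
      have := hS hy
      rw [mem_erase_union] at this
      rcases this with ⟨h1, h2⟩ | h1
      · exact ⟨hCA h1, fun h => (hDnP y h).1 h1, fun h => Finset.disjoint_left.1 hCU h1 h, h2⟩
      · have h2 := (hRmem y).1 h1
        exact ⟨h2.1, h2.2.2.2, h2.2.2.1, fun h => h2.2.1 (h ▸ hxC)⟩
    have hP' := hPe.insert (S := S) (fun y hy => (hSmem y hy).1) hSG hSG.nonempty (by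
      intro T hT
      rw [Finset.disjoint_left]
      intro y hy hyT
      apply (hSmem y hy).2.2.1
      rw [hU, mem_biUnion]
      exact ⟨T, hT, hyT⟩)
    have h1 := hd.insert (by omega) hD hxD hp1 hp2
    have h2 := hfgmax (l + 1) (by omega) ⟨_, _, hP', (by
      intro y hy
      rw [biUnion_insert]
      have e : id S ∪ (P.erase C).biUnion id = S ∪ U := rfl
      rw [e, mem_sdiff, mem_union]
      push Not
      rw [mem_insert] at hy
      rcases hy with rfl | hy
      · exact ⟨hCA hxC, fun h => (hSmem y h).2.2.2 rfl, fun h => Finset.disjoint_left.1 hCU hxC h⟩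
      · exact ⟨hDA hy, fun h => (hSmem y h).2.1 hy, (hDnP y hy).2⟩), h1⟩
    omega
  have hCR : Disjoint C R := by
    rw [Finset.disjoint_left]
    intro x hx hxR
    exact ((hRmem x).1 hxR).2.1 hx
  obtain ⟨φ, f1, f2, f3, f4⟩ := config G s (by omega) (hP.good C hCP) hd hD hCR ⟨z, hzC, hzT⟩ hF
  exact ⟨{
    l := l, d := d, C := C, D := D, R := R, U := U, c0 := z, φ := φ
    l_pos := hfg1
    l_le := hl2
    isC := hd
    memD := hD
    hA := hAeq
    dC := hdC
    dD := hdD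
    dR := hdR
    cardU := hUc
    gcC := hP.good C hCP
    cardA := hAc
    φ_le := f1
    φ1 := f2
    φ2 := f3
    φ3 := f4
    hmax := by
      intro n S hS hG hn
      refine hfgmax n hn ⟨P, S, hP, ?_, hG⟩
      intro y hy
      have := hS hy
      rw [mem_union] at this
      rw [mem_sdiff, hUP, mem_union]
      push Not
      rcases this with h | h
      · exact ⟨hDA h, hDnP y h⟩
      · have h2 := (hRmem y).1 h
        exact ⟨h2.1, h2.2.1, h2.2.2.1⟩
    c0C := hzC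
    c0T := hzT }⟩

end Pool.Agent.MPd89fb5
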