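import Pool.Agent.Lib.MP_d89fb5_co.JLem

set_option autoImplicit false

namespace Pool.Agent.MPd89fb5

open Finset
open scoped Classical

variable {V : Type}

lemma np_eq_dg (G : SimpleGraph V) (x : V) (l : List V) (hl : l.Nodup) :
    np (G.Adj x) l = dg G x l.toFinset := by
  induction l with
  | nil => simp [np, dg]
  | cons a l ih =>
    rw [List.nodup_cons] at hl
    rw [List.toFinset_cons, dg_insert _ _ _ (by simpa using hl.1), ← ih hl.2]
    simp only [np]
    ring

/-- `x` is adjacent to two consecutive vertices of the cyclic sequence `d` -/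
def TT (G : SimpleGraph V) {l : ℕ} (d : ZMod l → V) (x : V) : Prop :=
  ∃ p : ZMod l, G.Adj x (d p) ∧ G.Adj x (d (p + 1))

lemma dg_le_half {G : SimpleGraph V} {l : ℕ} [NeZero l] {d : ZMod l → V} (hd : IsC G d) {D : Finset V}
    (hD : ∀ x, x ∈ D ↔ ∃ i, d i = x) {x : V} (h : ¬ TT G d x) : 2 * dg G x D ≤ l := by
  rw [dg_eq_pos hd.inj hD]
  apply count_no_consec
  intro i hi hi'
  exact h ⟨i, mem_pos.1 hi, mem_pos.1 hi'⟩

lemma mem_erase_union {C R : Finset V} {u x : V} : x ∈ C.erase u ∪ R ↔ (x ∈ C ∧ x ≠ u) ∨ x ∈ R := by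
  rw [mem_union, mem_erase]; tauto

/-- Lemma J' -/
lemma lemma_J (G : SimpleGraph V) (s : ℕ) (hs : 2 ≤ s) {c : ZMod (2 * s) → V} (hc : IsC G c)
    {C : Finset V} (hC : ∀ x, x ∈ C ↔ ∃ i, c i = x) {R : Finset V} (hCR : Disjoint C R)
    (i0 : ZMod (2 * s)) (hno : ¬ ∃ S ⊆ C.erase (c i0) ∪ R, GC G (2 * s) S) :
    (R.filter (fun x => s ≤ dg G x (C.erase (c i0)))).card ≤ 2 * s - 2 := by
  have : NeZero (2 * s) := ⟨by omega⟩
  by_contra hcon
  push Not at hcon
  set X := R.filter (fun x => s ≤ dg G x (C.erase (c i0))) with hX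
  let P := arc c (i0 + 1) (2 * s - 1)
  have hPnd : P.Nodup := hc.arc_nodup _ (by omega)
  have hPch : P.IsChain G.Adj := hc.arc_chain _ (by omega)
  have hPmem : ∀ x, x ∈ P ↔ x ∈ C ∧ x ≠ c i0 := by
    intro x
    rw [hC]
    exact mem_arc_pred (by omega) hc i0 x
  have hPfin : P.toFinset = C.erase (c i0) := by
    ext x
    rw [List.mem_toFinset, hPmem, mem_erase]; tauto
  have hhd : P.head? = some (c (i0 + 1)) := arc_head? _ _ (by omega)
  obtain ⟨la, hla⟩ : ∃ la, P.getLast? = some la := ⟨_, arc_getLast? _ _ (by omega)⟩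
  have hPlen : P.length = 2 * s - 1 := arc_length _ _ _
  have hXR : ∀ x ∈ X, x ∈ R := fun x hx => (mem_filter.1 hx).1
  have hXP : ∀ x ∈ X, x ∉ P := by
    intro x hx h
    rw [hPmem] at h
    exact Finset.disjoint_left.1 hCR h.1 (hXR x hx)
  have hXnp : ∀ x ∈ X, s ≤ np (G.Adj x) P := by
    intro x hx
    rw [np_eq_dg G x P hPnd, hPfin]
    exact (mem_filter.1 hx).2
  have hfin : ∀ l' : List V, CL G l' → l'.length = 2 * s → (∀ x ∈ l', x ∈ P ∨ x ∈ X) → False := by
    intro l' h1 h2 h3
    apply hno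
    refine ⟨l'.toFinset, ?_, h1.toGC h2⟩
    intro x hx
    rw [List.mem_toFinset] at hx
    rw [mem_erase_union]
    rcases h3 x hx with h | h
    · exact Or.inl ((hPmem x).1 h)
    · exact Or.inr (hXR x h)
  have hboth : ∀ x ∈ X, ¬ (G.Adj x (c (i0 + 1)) ∧ G.Adj x la) := by
    rintro x hx ⟨h1, h2⟩
    apply hfin (x :: P)
    · refine ⟨by simp, ?_, ?_, ?_⟩
      · rw [List.nodup_cons]; exact ⟨hXP x hx, hPnd⟩
      · rw [List.isChain_cons]
        refine ⟨?_, hPch⟩
        rw [hhd]; simpa using h1
      · intro a ha b hb _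
        simp only [List.head?_cons, Option.mem_def, Option.some.injEq] at hb
        subst hb
        rw [List.getLast?_cons_of_ne_nil (by rw [← List.length_pos_iff]; omega), hla] at ha
        simp only [Option.mem_def, Option.some.injEq] at ha
        subst ha
        exact h2.symm
    · rw [List.length_cons]; omega
    · intro z hz
      rw [List.mem_cons] at hz
      rcases hz with rfl | hz
      · exact Or.inr hx
      · exact Or.inl hz
  have hcard : X.card ≤ (X.filter (fun x => ¬ G.Adj x (c (i0 + 1)))).card +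
      (X.filter (fun x => ¬ G.Adj x la)).card := by
    have : X ⊆ X.filter (fun x => ¬ G.Adj x (c (i0 + 1))) ∪ X.filter (fun x => ¬ G.Adj x la) := by
      intro x hx
      rw [mem_union]
      have h1 := hboth x hx
      by_cases h2 : G.Adj x (c (i0 + 1))
      · exact Or.inr (mem_filter.2 ⟨hx, fun h3 => h1 ⟨h2, h3⟩⟩)
      · exact Or.inl (mem_filter.2 ⟨hx, h2⟩)
    exact (card_le_card this).trans (card_union_le _ _)
  rcases Nat.lt_or_ge (X.filter (fun x => ¬ G.Adj x (c (i0 + 1)))).card s with h | h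
  · have h' : s ≤ (X.filter (fun x => ¬ G.Adj x la)).card := by omega
    obtain ⟨l', g1, g2, g3⟩ := J_core G s hs _ h' _ P.dropLast rfl
      (hPnd.sublist (List.dropLast_sublist P)) hPch.dropLast
      (by rw [List.length_dropLast, hPlen]; omega)
      (fun y hy h => hXP y (mem_filter.1 hy).1 (List.mem_of_mem_dropLast h)) (by
        intro y hy
        rw [mem_filter] at hy
        have h1 := hXnp y hy.1
        rw [np_dropLast _ P la hla, if_neg hy.2] at h1
        exact h1)
    exact hfin l' g1 g2 (fun x hx => (g3 x hx).imp List.mem_of_mem_dropLast (fun h => (mem_filter.1 h).1))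
  · obtain ⟨l', g1, g2, g3⟩ := J_core G s hs _ h _ P.tail rfl hPnd.tail hPch.tail
      (by rw [List.length_tail, hPlen]; omega)
      (fun y hy h => hXP y (mem_filter.1 hy).1 (List.mem_of_mem_tail h)) (by
        intro y hy
        rw [mem_filter] at hy
        have h1 := hXnp y hy.1
        rw [np_tail _ P _ hhd, if_neg hy.2] at h1
        exact h1)
    exact hfin l' g1 g2 (fun x hx => (g3 x hx).imp List.mem_of_mem_tail (fun h => (mem_filter.1 h).1))

/-- the counting facts about one cycle `C` of an optimal configuration -/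
theorem config (G : SimpleGraph V) (s : ℕ) (hs : 2 ≤ s) {C D R : Finset V} {l : ℕ} [NeZero l]
    (hCg : GC G (2 * s) C) {d : ZMod l → V} (hd : IsC G d)
    (hD : ∀ x, x ∈ D ↔ ∃ i, d i = x) (hCR : Disjoint C R)
    (hT : ∃ x ∈ C, TT G d x)
    (hF : ∀ x ∈ C, TT G d x → ¬ ∃ S ⊆ C.erase x ∪ R, GC G (2 * s) S) :
    ∃ φ : ℕ, φ ≤ 2 * s ∧ E G C R ≤ s * R.card + (s - 1) * φ ∧
      E G C D + (l - l / 2) * φ ≤ 2 * s * l ∧
      (R.filter (fun x => s + 1 ≤ dg G x C)).card ≤ 2 * s - 2 := by
  have : NeZero (2 * s) := ⟨by omega⟩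
  obtain ⟨c, hc, hC⟩ := hCg.exists_zmod
  have hci : ∀ i, c i ∈ C := fun i => (hC _).2 ⟨i, rfl⟩
  set F : Finset (ZMod (2 * s)) := univ.filter (fun i => ∃ S ⊆ C.erase (c i) ∪ R, GC G (2 * s) S) with hFdef
  have hDc : D.card = l := by
    have : D = univ.image d := by
      ext x; rw [hD, mem_image]; simp
    rw [this, card_image_of_injective _ hd.inj, card_univ, ZMod.card]
  have hCimg : C = univ.image c := by
    ext x; rw [hC, mem_image]; simp
  have hlast : (R.filter (fun x => s + 1 ≤ dg G x C)).card ≤ 2 * s - 2 := by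
    obtain ⟨x0, hx0, hTx0⟩ := hT
    obtain ⟨i0, rfl⟩ := (hC x0).1 hx0
    refine (card_le_card ?_).trans (lemma_J G s hs hc hC hCR i0 (hF _ hx0 hTx0))
    intro x hx
    rw [mem_filter] at hx ⊢
    refine ⟨hx.1, ?_⟩
    have h1 := hx.2
    have h2 := dg_insert G x (c i0) (notMem_erase (c i0) C)
    rw [insert_erase hx0] at h2
    split_ifs at h2 <;> omega
  refine ⟨F.card, ?_, ?_, ?_, hlast⟩
  · have := card_le_univ F
    rwa [ZMod.card] at this
  · have hx : ∀ x ∈ R, 2 * dg G x C ≤ 2 * s + F.card := by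
      intro x hx
      have hxC : x ∉ C := fun h => Finset.disjoint_left.1 hCR h hx
      rw [dg_eq_pos hc.inj hC x]
      refine (count_two_sided (pos G c x)).trans ?_
      gcongr
      intro i hi
      rw [mem_filter] at hi ⊢
      refine ⟨mem_univ _, insert x (C.erase (c i)), ?_, ?_⟩
      · intro y hy
        rw [mem_erase_union]
        rw [mem_insert, mem_erase] at hy
        rcases hy with rfl | hy
        · exact Or.inr hx
        · exact Or.inl ⟨hy.2, hy.1⟩
      · exact hc.replace (by omega) hC hxC (mem_pos.1 hi.2.1) (mem_pos.1 hi.2.2) (by omega)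
    have h1 : 2 * E G C R ≤ 2 * s * R.card + (2 * s - 2) * F.card := by
      rw [E_symm]
      unfold E
      rw [mul_sum]
      calc ∑ x ∈ R, 2 * dg G x C ≤ ∑ x ∈ R, (2 * s + if s + 1 ≤ dg G x C then F.card else 0) := by
            apply sum_le_sum
            intro x hxR
            split_ifs with h
            · exact hx x hxR
            · omega
        _ = 2 * s * R.card + (R.filter (fun x => s + 1 ≤ dg G x C)).card * F.card := by
            rw [sum_add_distrib, sum_const, smul_eq_mul, ← sum_filter, sum_const, smul_eq_mul]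
            ring
        _ ≤ 2 * s * R.card + (2 * s - 2) * F.card := by gcongr
    have h2 : 2 * s - 2 = 2 * (s - 1) := by omega
    rw [h2] at h1
    nlinarith
  · have h1 : ∀ i : ZMod (2 * s), dg G (c i) D + (if i ∈ F then l - l / 2 else 0) ≤ l := by
      intro i
      split_ifs with h
      · rw [mem_filter] at h
        have h3 : ¬ TT G d (c i) := fun h4 => hF (c i) (hci i) h4 h.2
        have := dg_le_half hd hD h3
        omega
      · have := dg_le G (c i) D
        omega
    have h2 : E G C D = ∑ i : ZMod (2 * s), dg G (c i) D := by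
      unfold E
      rw [hCimg, sum_image (fun i _ j _ h => hc.inj h)]
    calc E G C D + (l - l / 2) * F.card
        = ∑ i : ZMod (2 * s), (dg G (c i) D + (if i ∈ F then l - l / 2 else 0)) := by
          rw [sum_add_distrib, ← h2]
          congr 1
          rw [← sum_filter, sum_const, smul_eq_mul, filter_mem_eq_inter, univ_inter]
          ring
      _ ≤ ∑ i : ZMod (2 * s), l := sum_le_sum (fun i _ => h1 i)
      _ = 2 * s * l := by
          rw [sum_const, card_univ, ZMod.card, smul_eq_mul]

end Pool.Agent.MPd89fb5
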