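import Pool.Agent.Lib.MP_d89fb5_co.Count

set_option autoImplicit false

namespace Pool.Agent.MPd89fb5

open Finset
open scoped Classical

variable {V : Type}

/-- contraction of `v` into `u` (the vertex `v` is to be ignored afterwards) -/
def contr (G : SimpleGraph V) (u v : V) : SimpleGraph V where
  Adj x y := x ≠ y ∧ (G.Adj x y ∨ (x = u ∧ G.Adj v y) ∨ (y = u ∧ G.Adj v x))
  symm := ⟨by
    rintro x y ⟨h1, h2⟩
    refine ⟨h1.symm, ?_⟩
    rcases h2 with h | h | h
    · exact Or.inl h.symm
    · exact Or.inr (Or.inr h)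
    · exact Or.inr (Or.inl h)⟩
  loopless := ⟨fun x h => h.1 rfl⟩

lemma contr_adj_of_ne {G : SimpleGraph V} {u v x y : V} (hx : x ≠ u) (hy : y ≠ u) :
    (contr G u v).Adj x y ↔ G.Adj x y := by
  unfold contr
  simp only
  constructor
  · rintro ⟨h1, h | h | h⟩
    · exact h
    · exact absurd h.1 hx
    · exact absurd h.1 hy
  · intro h
    exact ⟨h.ne, Or.inl h⟩

lemma contr_adj_u {G : SimpleGraph V} {u v y : V} (hy : y ≠ u) :
    (contr G u v).Adj u y ↔ G.Adj u y ∨ G.Adj v y := by
  unfold contr
  simp only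
  constructor
  · rintro ⟨h1, h | h | h⟩
    · exact Or.inl h
    · exact Or.inr h.2
    · exact absurd h.1 hy
  · rintro (h | h)
    · exact ⟨hy.symm, Or.inl h⟩
    · exact ⟨hy.symm, Or.inr (Or.inl ⟨by trivial, h⟩)⟩

/-- common neighbours of `u` and `v` in `A` -/
noncomputable def cod (G : SimpleGraph V) (u v : V) (A : Finset V) : ℕ :=
  (A.filter (fun x => G.Adj u x ∧ G.Adj v x)).card

lemma contr_E {G : SimpleGraph V} {u v : V} {A : Finset V} (hu : u ∈ A) (hv : v ∈ A) (h : G.Adj u v) :
    E (contr G u v) (A.erase v) (A.erase v) + 2 * (cod G u v A + 1) = E G A A := by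
  have huv : u ≠ v := h.ne
  have huA : u ∈ A.erase v := mem_erase.2 ⟨huv, hu⟩
  set B := (A.erase v).erase u with hB
  have hBu : ∀ x ∈ B, x ≠ u := fun x hx => (mem_erase.1 hx).1
  have hBv : ∀ x ∈ B, x ≠ v := fun x hx => (mem_erase.1 (mem_erase.1 hx).2).1
  rw [E_erase G hv, E_erase G huA, E_erase (contr G u v) huA, ← hB]
  have h1 : E (contr G u v) B B = E G B B := by
    unfold E dg
    apply sum_congr rfl
    intro x hx
    congr 1
    apply filter_congr
    intro y hy
    exact contr_adj_of_ne (hBu x hx) (hBu y hy)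
  have hAB : A.erase v = insert u B := (insert_erase huA).symm
  have h2 : dg (contr G u v) u (A.erase v) = dg (contr G u v) u B := by rw [hAB, dg_insert_self]
  have h3 : dg G u (A.erase v) = dg G u B := by rw [hAB, dg_insert_self]
  have h4 : dg G v A = dg G v B + 1 := by
    rw [← insert_erase hv, dg_insert_self, hAB, dg_insert _ _ _ (notMem_erase _ _), if_pos h.symm]
  have h5 : cod G u v A = (B.filter (fun x => G.Adj u x ∧ G.Adj v x)).card := by
    unfold cod
    congr 1
    ext x
    rw [mem_filter, mem_filter, hB, mem_erase, mem_erase]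
    constructor
    · rintro ⟨h6, h7, h8⟩
      exact ⟨⟨h7.ne', h8.ne', h6⟩, h7, h8⟩
    · rintro ⟨⟨_, _, h6⟩, h7⟩
      exact ⟨h6, h7⟩
  have h6 : dg (contr G u v) u B + cod G u v A = dg G u B + dg G v B := by
    rw [h5]
    unfold dg
    have : B.filter (fun b => (contr G u v).Adj u b) = B.filter (fun b => G.Adj u b) ∪ B.filter (fun b => G.Adj v b) := by
      ext x
      simp only [mem_union, mem_filter]
      constructor
      · rintro ⟨hx, h7⟩
        rw [contr_adj_u (hBu x hx)] at h7
        tauto
      · intro h7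
        have hx : x ∈ B := by tauto
        rw [contr_adj_u (hBu x hx)]
        tauto
    rw [this, ← card_union_add_card_inter (B.filter (fun b => G.Adj u b)), ← filter_and]
  rw [h1, h2, h3, h4]
  omega

lemma CL_of_path {G : SimpleGraph V} {P : List V} {x y w : V} (h1 : P.Nodup) (h2 : P.IsChain G.Adj)
    (hy : P.head? = some y) (hw : P.getLast? = some w) (hx : x ∉ P) (hxy : G.Adj x y) (hxw : G.Adj x w) :
    CL G (x :: P) := by
  have hne : P ≠ [] := by rintro rfl; simp at hy
  refine ⟨by simp, ?_, ?_, ?_⟩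
  · rw [List.nodup_cons]; exact ⟨hx, h1⟩
  · rw [List.isChain_cons]
    refine ⟨?_, h2⟩
    rw [hy]; simpa using hxy
  · intro a ha b hb _
    simp only [List.head?_cons, Option.mem_def, Option.some.injEq] at hb
    subst hb
    rw [List.getLast?_cons_of_ne_nil hne, hw] at ha
    simp only [Option.mem_def, Option.some.injEq] at ha
    subst ha
    exact hxw.symm

lemma GC_lift {G : SimpleGraph V} {u v : V} (huv : G.Adj u v) {n : ℕ} (hn : 3 ≤ n) {S : Finset V}
    (hS : GC (contr G u v) n S) (hv : v ∉ S) :
    (u ∉ S ∧ GC G n S) ∨ (u ∈ S ∧ ∃ n' ≥ n, ∃ S' ⊆ insert v S, GC G n' S') := by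
  have : NeZero n := ⟨by omega⟩
  obtain ⟨c, hc, hcS⟩ := hS.exists_zmod
  by_cases hu : u ∈ S
  · right
    refine ⟨hu, ?_⟩
    obtain ⟨i0, hi0⟩ := (hcS u).1 hu
    set P := arc c (i0 + 1) (n - 1) with hP
    have hPmem : ∀ x, x ∈ P ↔ x ∈ S ∧ x ≠ u := by
      intro x
      rw [hcS, ← hi0]
      exact mem_arc_pred (by omega) hc i0 x
    have hPnd : P.Nodup := hc.arc_nodup _ (by omega)
    have hPch' : P.IsChain (contr G u v).Adj := hc.arc_chain _ (by omega)
    have hPch : P.IsChain G.Adj := by
      rw [List.isChain_iff_getElem] at hPch' ⊢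
      intro i hi
      have h1 := hPch' i hi
      have h2 := (hPmem _).1 (List.getElem_mem (show i < P.length by omega))
      have h3 := (hPmem _).1 (List.getElem_mem hi)
      rwa [contr_adj_of_ne h2.2 h3.2] at h1
    have hhd : P.head? = some (c (i0 + 1)) := arc_head? _ _ (by omega)
    have hla : P.getLast? = some (c (i0 - 1)) := by
      rw [hP, arc_getLast? _ _ (by omega)]
      congr 2
      have h1 : ((n - 1 - 1 + 1 + 1 : ℕ) : ZMod n) = 0 := by
        have : n - 1 - 1 + 1 + 1 = n := by omega
        rw [this]; exact ZMod.natCast_self _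
      push_cast at h1
      have h2 : i0 + 1 + ((n - 1 - 1 : ℕ) : ZMod n) = i0 - 1 + (((n - 1 - 1 : ℕ) : ZMod n) + 1 + 1) := by ring
      rw [h2, h1, add_zero]
    have hlen : P.length = n - 1 := arc_length _ _ _
    have hyP : c (i0 + 1) ∈ P := List.mem_of_head? hhd
    have hwP : c (i0 - 1) ∈ P := List.mem_of_getLast? hla
    have huP : u ∉ P := fun h => ((hPmem _).1 h).2 rfl
    have hvP : v ∉ P := fun h => hv ((hPmem _).1 h).1
    have hy := hc.adj' (by omega) i0
    rw [hi0, contr_adj_u ((hPmem _).1 hyP).2] at hy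
    have hw := (hc.adj' (by omega) (i0 - 1)).symm
    rw [sub_add_cancel, hi0, contr_adj_u ((hPmem _).1 hwP).2] at hw
    have hPS : P.toFinset ⊆ S := by
      intro x hx
      rw [List.mem_toFinset, hPmem] at hx; exact hx.1
    have two : ∀ a b, a ∉ P → b ∉ P → a ≠ b → G.Adj a b → G.Adj b (c (i0 + 1)) → G.Adj a (c (i0 - 1)) →
        CL G (a :: b :: P) := by
      intro a b ha hb hab h1 h2 h3
      refine CL_of_path (P := b :: P) (y := b) (w := c (i0 - 1)) ?_ ?_ ?_ ?_ ?_ h1 h3
      · rw [List.nodup_cons]; exact ⟨hb, hPnd⟩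
      · rw [List.isChain_cons]
        refine ⟨?_, hPch⟩
        rw [hhd]; simpa using h2
      · rfl
      · rw [List.getLast?_cons_of_ne_nil (by rw [← List.length_pos_iff]; omega), hla]
      · rw [List.mem_cons]; push Not; exact ⟨hab, ha⟩
    rcases hy with hy | hy <;> rcases hw with hw | hw
    · exact ⟨n, le_rfl, _, by
        rw [List.toFinset_cons]
        intro x hx
        rw [mem_insert] at hx ⊢
        rcases hx with rfl | hx
        · exact Or.inr hu
        · exact Or.inr (hPS hx), (CL_of_path hPnd hPch hhd hla huP hy hw).toGC (by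
          rw [List.length_cons]; omega)⟩
    · exact ⟨n + 1, by omega, _, by
        rw [List.toFinset_cons, List.toFinset_cons]
        intro x hx
        rw [mem_insert, mem_insert] at hx
        rw [mem_insert]
        rcases hx with rfl | rfl | hx
        · exact Or.inl rfl
        · exact Or.inr hu
        · exact Or.inr (hPS hx), (two v u hvP huP huv.ne' huv.symm hy hw).toGC (by
          rw [List.length_cons, List.length_cons]; omega)⟩
    · exact ⟨n + 1, by omega, _, by
        rw [List.toFinset_cons, List.toFinset_cons]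
        intro x hx
        rw [mem_insert, mem_insert] at hx
        rw [mem_insert]
        rcases hx with rfl | rfl | hx
        · exact Or.inr hu
        · exact Or.inl rfl
        · exact Or.inr (hPS hx), (two u v huP hvP huv.ne huv hy hw).toGC (by
          rw [List.length_cons, List.length_cons]; omega)⟩
    · exact ⟨n, le_rfl, _, by
        rw [List.toFinset_cons]
        intro x hx
        rw [mem_insert] at hx ⊢
        rcases hx with rfl | hx
        · exact Or.inl rfl
        · exact Or.inr (hPS hx), (CL_of_path hPnd hPch hhd hla hvP hy hw).toGC (by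
          rw [List.length_cons]; omega)⟩
  · left
    refine ⟨hu, ?_⟩
    refine IsC.toGC (c := c) (by omega) ⟨hc.inj, ?_⟩ hcS
    intro i hi
    have h1 := hc.adj i hi
    rwa [contr_adj_of_ne] at h1
    · intro h; exact hu ((hcS _).2 ⟨_, h⟩)
    · intro h; exact hu ((hcS _).2 ⟨_, h⟩)

end Pool.Agent.MPd89fb5
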