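import Pool.Agent.Lib.MP_d89fb5_co.Main

set_option autoImplicit false

namespace Pool.Agent.MPd89fb5

open Finset

variable {V : Type}

lemma path_close {G : SimpleGraph V} {a z : V} (p : G.Walk a z) (hp : p.IsPath) (hl : 2 ≤ p.length) :
    s(z, a) ∉ p.edges := by
  cases p with
  | nil => simp at hl
  | @cons _ b _ h p' =>
    rw [SimpleGraph.Walk.cons_isPath_iff] at hp
    rw [SimpleGraph.Walk.edges_cons, List.mem_cons]
    rintro (h1 | h1)
    · rw [Sym2.eq_iff] at h1
      rcases h1 with ⟨h2, h3⟩ | ⟨h2, _⟩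
      · exact h.ne h3
      · subst h2
        have h4 := hp.1
        rw [SimpleGraph.Walk.isPath_iff_nil] at h4
        have h5 : p'.length = 0 := SimpleGraph.Walk.length_eq_zero_iff.2 h4
        rw [SimpleGraph.Walk.length_cons] at hl
        omega
    · exact hp.2 (SimpleGraph.Walk.snd_mem_support_of_mem_edges _ h1)

lemma CL_walk {G : SimpleGraph V} {l : List V} (hl : CL G l) (h3 : 3 ≤ l.length) :
    ∃ (u : V) (w : G.Walk u u), w.IsCycle ∧ w.length = l.length ∧ ∀ x, x ∈ w.support ↔ x ∈ l := by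
  let p := SimpleGraph.Walk.ofSupport l hl.ne hl.chain
  have hsup : p.support = l := SimpleGraph.Walk.support_ofSupport _ _
  have hlen : p.length + 1 = l.length := by
    have := SimpleGraph.Walk.length_support p
    rw [hsup] at this
    omega
  have hpath : p.IsPath := by
    rw [SimpleGraph.Walk.isPath_def, hsup]; exact hl.nodup
  have hne : l.getLast hl.ne ≠ l.head hl.ne := by
    intro h
    rw [List.getLast_eq_getElem, List.head_eq_getElem] at h
    have := (List.Nodup.getElem_inj_iff hl.nodup).1 h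
    omega
  have hadj : G.Adj (l.getLast hl.ne) (l.head hl.ne) :=
    hl.close _ (List.getLast?_eq_some_getLast hl.ne) _ (List.head?_eq_some_head hl.ne) hne
  refine ⟨_, SimpleGraph.Walk.cons hadj p, ?_, ?_, ?_⟩
  · rw [SimpleGraph.Walk.cons_isCycle_iff]
    exact ⟨hpath, path_close p hpath (by omega)⟩
  · rw [SimpleGraph.Walk.length_cons]; exact hlen
  · intro x
    rw [SimpleGraph.Walk.support_cons, hsup, List.mem_cons]
    constructor
    · rintro (rfl | h)
      · exact List.getLast_mem hl.ne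
      · exact h
    · exact Or.inr

open scoped Classical in
lemma GC_walk {G : SimpleGraph V} {n : ℕ} {S : Finset V} (h : GC G n S) (hn : 3 ≤ n) :
    ∃ (u : V) (w : G.Walk u u), w.IsCycle ∧ w.length = n ∧ ∀ x, x ∈ w.support ↔ x ∈ S := by
  obtain ⟨l, hl, hln, hlS⟩ := h
  obtain ⟨u, w, h1, h2, h3⟩ := CL_walk hl (by omega)
  refine ⟨u, w, h1, by omega, fun x => ?_⟩
  rw [h3, ← hlS, List.mem_toFinset]

lemma dg_eq_degree {V : Type} [Fintype V] (G : SimpleGraph V) [DecidableRel G.Adj] (v : V) :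
    dg G v univ = G.degree v := by
  unfold dg
  rw [← G.card_neighborFinset_eq_degree]
  congr 1
  ext x
  simp

theorem final (k r : ℕ) (hk : 3 ≤ k) (hr : 6 ≤ r) (hev : Even r)
    (V : Type) [Fintype V] [DecidableEq V] (G : SimpleGraph V) [DecidableRel G.Adj]
    (hV : r * k ≤ Fintype.card V) (hE : (r * k - 2) * Fintype.card V ≤ 2 * G.edgeFinset.card) :
    ∃ (u : Fin k → V) (c : ∀ i, G.Walk (u i) (u i)),
      (∀ i, (c i).IsCycle ∧ r ≤ (c i).length) ∧
      ∀ i j, i ≠ j → Disjoint (c i).support.toFinset (c j).support.toFinset := by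
  obtain ⟨s, hs⟩ := hev
  have hr2 : r = 2 * s := by omega
  subst hr2
  have hE2 : E G univ univ = 2 * G.edgeFinset.card := by
    rw [← G.sum_degrees_eq_twice_card_edges]
    unfold E
    exact sum_congr rfl (fun v _ => dg_eq_degree G v)
  have hE3 : 2 * (s * k - 1) * (univ : Finset V).card ≤ E G univ univ := by
    rw [hE2, card_univ]
    have : 2 * (s * k - 1) = 2 * s * k - 2 := by
      have : 2 * s * k = 2 * (s * k) := by ring
      omega
    rw [this]; exact hE
  obtain ⟨P, hP⟩ := main s (by omega) k (by omega) (univ : Finset V).card G univ rfl (by rwa [card_univ]) hE3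
  have hcyc : ∀ S ∈ P, ∃ (u : V) (w : G.Walk u u), w.IsCycle ∧ 2 * s ≤ w.length ∧
      ∀ x, x ∈ w.support ↔ x ∈ S := by
    intro S hS
    obtain ⟨n, hn, hG⟩ := hP.good S hS
    obtain ⟨u, w, h1, h2, h3⟩ := GC_walk hG (by omega)
    exact ⟨u, w, h1, by omega, h3⟩
  let e : Fin k ≃ P := (P.equivFinOfCardEq hP.card).symm
  choose u w h1 h2 h3 using fun i : Fin k => hcyc (e i).1 (e i).2
  refine ⟨u, w, fun i => ⟨h1 i, h2 i⟩, ?_⟩
  intro i j hij
  have hne : (e i).1 ≠ (e j).1 := fun h => hij (e.injective (Subtype.ext h))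
  have hd := hP.disj _ (e i).2 _ (e j).2 hne
  rw [Finset.disjoint_left] at hd ⊢
  intro x hx hx'
  rw [List.mem_toFinset] at hx hx'
  exact hd ((h3 i x).1 hx) ((h3 j x).1 hx')

end Pool.Agent.MPd89fb5
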