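import Pool.Agent.Lib.MP_d89fb5_co.Cyc

set_option autoImplicit false

namespace Pool.Agent.MPd89fb5

open Finset
open scoped Classical

variable {V : Type}

lemma count_no_consec {n : ℕ} [NeZero n] (S : Finset (ZMod n)) (h : ∀ i ∈ S, i + 1 ∉ S) :
    2 * S.card ≤ n := by
  have h1 : Disjoint S (S.image (fun i => i + 1)) := by
    rw [Finset.disjoint_left]
    intro a ha hb
    rw [mem_image] at hb
    obtain ⟨b, hb, rfl⟩ := hb
    exact h b hb ha
  have h2 : (S.image (fun i => i + 1)).card = S.card :=
    card_image_of_injective _ (add_left_injective 1)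
  have h3 := card_le_univ (S ∪ S.image (fun i => i + 1))
  rw [card_union_of_disjoint h1, h2, ZMod.card] at h3
  omega

lemma count_two_sided {n : ℕ} [NeZero n] (S : Finset (ZMod n)) :
    2 * S.card ≤ n + (univ.filter (fun i : ZMod n => i - 1 ∈ S ∧ i + 1 ∈ S)).card := by
  have h2 : (S.image (fun i => i + 1)).card = S.card :=
    card_image_of_injective _ (add_left_injective 1)
  have h2' : (S.image (fun i => i - 1)).card = S.card :=
    card_image_of_injective _ (sub_left_injective)
  have h3 := card_le_univ (S.image (fun i => i + 1) ∪ S.image (fun i => i - 1))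
  have h4 := card_union_add_card_inter (S.image (fun i => i + 1)) (S.image (fun i => i - 1))
  have h5 : S.image (fun i => i + 1) ∩ S.image (fun i => i - 1) ⊆
      univ.filter (fun i : ZMod n => i - 1 ∈ S ∧ i + 1 ∈ S) := by
    intro a ha
    rw [mem_inter, mem_image, mem_image] at ha
    obtain ⟨⟨b, hb, hb'⟩, ⟨d, hd, hd'⟩⟩ := ha
    simp only [mem_filter, mem_univ, true_and]
    refine ⟨?_, ?_⟩
    · rw [← hb', add_sub_cancel_right]; exact hb
    · rw [← hd', sub_add_cancel]; exact hd
  have h6 := card_le_card h5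
  rw [ZMod.card] at h3
  omega

/-- positions of the neighbours of `x` -/
noncomputable def pos (G : SimpleGraph V) {n : ℕ} [NeZero n] (c : ZMod n → V) (x : V) : Finset (ZMod n) :=
  univ.filter (fun i => G.Adj x (c i))

lemma mem_pos {G : SimpleGraph V} {n : ℕ} [NeZero n] {c : ZMod n → V} {x : V} {i : ZMod n} :
    i ∈ pos G c x ↔ G.Adj x (c i) := by simp [pos]

lemma dg_eq_pos {G : SimpleGraph V} {n : ℕ} [NeZero n] {c : ZMod n → V} (hc : Function.Injective c)
    {S : Finset V} (hS : ∀ x, x ∈ S ↔ ∃ i, c i = x) (x : V) :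
    dg G x S = (pos G c x).card := by
  unfold dg
  have : S.filter (fun b => G.Adj x b) = (pos G c x).image c := by
    ext y
    simp only [mem_filter, mem_image, mem_pos, hS]
    constructor
    · rintro ⟨⟨i, rfl⟩, h⟩; exact ⟨i, h, rfl⟩
    · rintro ⟨i, h, rfl⟩; exact ⟨⟨i, rfl⟩, h⟩
  rw [this, card_image_of_injective _ hc]

end Pool.Agent.MPd89fb5
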