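import Pool.Agent.Lib.MP_d89fb5_co.Contr
import Pool.Agent.Lib.MP_d89fb5_co.Config

set_option autoImplicit false

namespace Pool.Agent.MPd89fb5

open Finset
open scoped Classical

variable {V : Type}

lemma adj_flip (G : SimpleGraph V) : (fun a b => G.Adj b a) = G.Adj := by
  ext u v; exact G.adj_comm _ _

lemma chain_reverse {G : SimpleGraph V} {l : List V} (h : l.IsChain G.Adj) :
    l.reverse.IsChain G.Adj := by
  rw [List.isChain_reverse, adj_flip]; exact h

lemma ham_cross {G : SimpleGraph V} {PP : List V} {a b : V} (hnd : PP.Nodup) (hch : PP.IsChain G.Adj)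
    (ha : PP.head? = some a) (hb : PP.getLast? = some b) {l₁ l₂ : List V} {x y : V}
    (h : PP = l₁ ++ x :: y :: l₂) (hbx : G.Adj b x) (hay : G.Adj a y) :
    CL G ((l₁ ++ [x]) ++ (y :: l₂).reverse) := by
  have h' : PP = (l₁ ++ [x]) ++ (y :: l₂) := by rw [h]; simp
  rw [h', List.nodup_append] at hnd
  rw [h', List.isChain_append] at hch
  have hbl : (y :: l₂).getLast? = some b := by
    rw [← hb, h', List.getLast?_append_of_ne_nil _ (by simp)]
  have hal : (l₁ ++ [x]).head? = some a := by
    rw [← ha, h']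
    cases l₁ <;> simp
  refine ⟨by simp, ?_, ?_, ?_⟩
  · rw [List.nodup_append, List.nodup_reverse]
    refine ⟨hnd.1, hnd.2.1, ?_⟩
    intro u hu w hw
    rw [List.mem_reverse] at hw
    exact hnd.2.2 u hu w hw
  · rw [List.isChain_append]
    refine ⟨hch.1, chain_reverse hch.2.1, ?_⟩
    rw [List.head?_reverse, hbl]
    simpa using hbx.symm
  · intro u hu w hw _
    rw [List.getLast?_append_of_ne_nil _ (by simp), List.getLast?_reverse] at hu
    simp only [List.head?_cons, Option.mem_def, Option.some.injEq] at hu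
    have : ((l₁ ++ [x]) ++ (y :: l₂).reverse).head? = some a := by
      rw [← hal]
      cases l₁ <;> simp
    rw [this] at hw
    simp only [Option.mem_def, Option.some.injEq] at hw
    subst hu; subst hw
    exact hay.symm

lemma no_cross_count (p q : V → Prop) (l : List V) (hl : l ≠ [])
    (h : ¬ ∃ l₁ a b l₂, l = l₁ ++ a :: b :: l₂ ∧ p a ∧ q b) :
    np p l.dropLast + np q l.tail + 1 ≤ l.length := by
  by_contra hcon
  exact h (exists_cross p q l hl (by omega))

lemma arc_append {n : ℕ} (c : ZMod n → V) (a : ZMod n) (m k : ℕ) :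
    arc c a (m + k) = arc c a m ++ arc c (a + (m : ℕ)) k := by
  unfold arc
  rw [List.range_add, List.map_append, List.map_map]
  congr 1
  apply List.map_congr_left
  intro t _
  simp only [Function.comp]
  push_cast
  rw [add_assoc]

lemma crossing {G : SimpleGraph V} {z : ℕ} (hz : 3 ≤ z) {c : ZMod z → V} (hc : IsC G c)
    {Z : Finset V} (hZ : ∀ x, x ∈ Z ↔ ∃ i, c i = x) {Q : List V} (hQnd : Q.Nodup)
    (hQch : Q.IsChain G.Adj) {q1 q2 : V} (hq1 : Q.head? = some q1) (hq2 : Q.getLast? = some q2)
    (hQZ : ∀ x ∈ Q, x ∉ Z) {i j : ZMod z} (hij : i ≠ j) (h1 : G.Adj q1 (c i)) (h2 : G.Adj q2 (c j))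
    (hmax : ∀ l' : List V, CL G l' → (∀ x ∈ l', x ∈ Z ∨ x ∈ Q) → l'.length ≤ z) :
    dg G (c (i + 1)) Z + dg G (c (j + 1)) Z ≤ z := by
  have : NeZero z := ⟨by omega⟩
  set p := (j - (i + 1)).val with hp
  have hpz : p < z := ZMod.val_lt _
  have hpj : i + 1 + (p : ZMod z) = j := by
    rw [hp, ZMod.natCast_zmod_val]; ring
  have hp1 : p ≠ z - 1 := by
    intro h
    apply hij
    have h3 : ((p + 1 : ℕ) : ZMod z) = 0 := by
      rw [h, Nat.sub_add_cancel (by omega)]; exact ZMod.natCast_self _
    push_cast at h3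
    rw [← hpj, add_assoc, add_comm 1 (p : ZMod z), h3, add_zero]
  have hQne : 0 < Q.length := by
    rw [List.length_pos_iff]; rintro rfl; simp at hq1
  set l1 := arc c (i + 1) (p + 1) with hl1
  set l3 := arc c (j + 1) (z - 1 - p) with hl3
  have hsplit : l1 ++ l3 = arc c (i + 1) z := by
    have e : (p + 1) + (z - 1 - p) = z := by omega
    have e2 : arc c (i + 1) ((p + 1) + (z - 1 - p)) = arc c (i + 1) z := by rw [e]
    rw [← e2, arc_append]
    congr 2
    push_cast
    rw [← add_assoc, hpj]
  have hfull : ∀ x, x ∈ l1 ++ l3 ↔ x ∈ Z := by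
    intro x
    rw [hsplit, mem_arc_full (by omega), hZ]
  have hnd13 : (l1 ++ l3).Nodup := by rw [hsplit]; exact hc.arc_nodup _ le_rfl
  have hfin : (l1 ++ l3).toFinset = Z := by
    ext x; rw [List.mem_toFinset, hfull]
  have hl1len : l1.length = p + 1 := arc_length _ _ _
  have hl3len : l3.length = z - 1 - p := arc_length _ _ _
  have hl1ch : l1.IsChain G.Adj := hc.arc_chain _ (by omega)
  have hl3ch : l3.IsChain G.Adj := hc.arc_chain _ (by omega)
  have hl1head : l1.head? = some (c (i + 1)) := arc_head? _ _ (by omega)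
  have hl1last : l1.getLast? = some (c j) := by
    rw [hl1, arc_getLast? _ _ (by omega), Nat.add_sub_cancel, hpj]
  have hl3head : l3.head? = some (c (j + 1)) := arc_head? _ _ (by omega)
  have hl3last : l3.getLast? = some (c i) := by
    rw [hl3, arc_getLast? _ _ (by omega)]
    congr 2
    have h3 : ((z - 1 - p - 1 + 1 + 1 + p : ℕ) : ZMod z) = 0 := by
      have : z - 1 - p - 1 + 1 + 1 + p = z := by omega
      rw [this]; exact ZMod.natCast_self _
    push_cast at h3
    have h4 : j + 1 + ((z - 1 - p - 1 : ℕ) : ZMod z) =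
        j - 1 - (p : ZMod z) + (((z - 1 - p - 1 : ℕ) : ZMod z) + 1 + 1 + p) := by ring
    rw [h4, h3, add_zero, ← hpj]
    ring
  set PP := l1 ++ (Q.reverse ++ l3.reverse) with hPP
  have hnd13' := hnd13
  rw [List.nodup_append] at hnd13'
  have hPPnd : PP.Nodup := by
    rw [hPP, List.nodup_append, List.nodup_append, List.nodup_reverse, List.nodup_reverse]
    refine ⟨hnd13'.1, ⟨hQnd, hnd13'.2.1, ?_⟩, ?_⟩
    · intro u hu w hw
      rw [List.mem_reverse] at hu hw
      rintro rfl
      exact hQZ u hu ((hfull u).1 (List.mem_append.2 (Or.inr hw)))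
    · intro u hu w hw
      rw [List.mem_append, List.mem_reverse, List.mem_reverse] at hw
      rcases hw with hw | hw
      · rintro rfl
        exact hQZ u hw ((hfull u).1 (List.mem_append.2 (Or.inl hu)))
      · exact hnd13'.2.2 u hu w hw
  have hQr : Q.reverse ≠ [] := by
    rw [ne_eq, List.reverse_eq_nil_iff]
    rintro rfl; simp at hq1
  have hl3r : l3.reverse ≠ [] := by
    rw [ne_eq, List.reverse_eq_nil_iff]
    intro h; rw [h] at hl3head; simp at hl3head
  have hPPch : PP.IsChain G.Adj := by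
    rw [hPP, List.isChain_append, List.isChain_append]
    refine ⟨hl1ch, ⟨chain_reverse hQch, chain_reverse hl3ch, ?_⟩, ?_⟩
    · rw [List.getLast?_reverse, List.head?_reverse, hq1, hl3last]
      simpa using h1
    · rw [hl1last, List.head?_append_of_ne_nil _ hQr, List.head?_reverse, hq2]
      simpa using h2.symm
  have hPPhead : PP.head? = some (c (i + 1)) := by
    rw [hPP, List.head?_append_of_ne_nil _ (by intro h; rw [h] at hl1head; simp at hl1head), hl1head]
  have hPPlast : PP.getLast? = some (c (j + 1)) := by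
    rw [hPP, List.getLast?_append_of_ne_nil _ (by simp [hQr]), List.getLast?_append_of_ne_nil _ hl3r,
      List.getLast?_reverse, hl3head]
  have hPPlen : PP.length = z + Q.length := by
    rw [hPP, List.length_append, List.length_append, List.length_reverse, List.length_reverse,
      hl1len, hl3len]
    omega
  have hPPmem : ∀ x, x ∈ PP ↔ x ∈ Z ∨ x ∈ Q := by
    intro x
    rw [hPP, ← hfull x]
    simp only [List.mem_append, List.mem_reverse]
    tauto
  have hno : ∀ l₁ x y l₂, PP = l₁ ++ x :: y :: l₂ → G.Adj (c (j + 1)) x → G.Adj (c (i + 1)) y → False := by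
    intro l₁ x y l₂ h3 h4 h5
    have h6 := hmax _ (ham_cross hPPnd hPPch hPPhead hPPlast h3 h4 h5) (by
      intro w hw
      rw [← hPPmem, h3]
      simp only [List.mem_append, List.mem_reverse, List.mem_cons, List.not_mem_nil, or_false] at hw ⊢
      tauto)
    have h7 : ((l₁ ++ [x]) ++ (y :: l₂).reverse).length = PP.length := by
      rw [h3]
      simp only [List.length_append, List.length_reverse, List.length_cons, List.length_nil]
      omega
    omega
  have c1 := no_cross_count (G.Adj (c (j + 1))) (G.Adj (c (i + 1))) l1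
    (by rw [← List.length_pos_iff]; omega) (by
      rintro ⟨l₁, x, y, l₂, h3, h4, h5⟩
      refine hno l₁ x y (l₂ ++ (Q.reverse ++ l3.reverse)) ?_ h4 h5
      rw [hPP, h3]; simp)
  have c3 := no_cross_count (G.Adj (c (j + 1))) (G.Adj (c (i + 1))) l3.reverse hl3r (by
      rintro ⟨l₁, x, y, l₂, h3, h4, h5⟩
      refine hno (l1 ++ (Q.reverse ++ l₁)) x y l₂ ?_ h4 h5
      rw [hPP, h3]; simp)
  have d1 := np_tail (G.Adj (c (i + 1))) l1 _ hl1head
  rw [if_neg (G.irrefl)] at d1
  have d2 := np_dropLast (G.Adj (c (j + 1))) l1 _ hl1last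
  have d3 := np_tail (G.Adj (c (i + 1))) l3.reverse (c i) (by rw [List.head?_reverse, hl3last]; rfl)
  have d4 := np_dropLast (G.Adj (c (j + 1))) l3.reverse (c (j + 1)) (by
    rw [List.getLast?_reverse, hl3head]; rfl)
  rw [if_neg (G.irrefl)] at d4
  have e1 : dg G (c (i + 1)) Z = np (G.Adj (c (i + 1))) l1 + np (G.Adj (c (i + 1))) l3.reverse := by
    rw [← hfin, ← np_eq_dg _ _ _ hnd13, np_append, np_reverse]
  have e2 : dg G (c (j + 1)) Z = np (G.Adj (c (j + 1))) l1 + np (G.Adj (c (j + 1))) l3.reverse := by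
    rw [← hfin, ← np_eq_dg _ _ _ hnd13, np_append, np_reverse]
  rw [List.length_reverse] at c3
  split_ifs at d2 d3 <;> omega

end Pool.Agent.MPd89fb5
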