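import Pool.Agent.Lib.MP_d89fb5_co.Basic

set_option autoImplicit false

namespace Pool.Agent.MPd89fb5

open Finset
open scoped Classical

variable {V : Type}

/-- cyclic list -/
structure CL (G : SimpleGraph V) (l : List V) : Prop where
  ne : l ≠ []
  nodup : l.Nodup
  chain : l.IsChain G.Adj
  close : ∀ a ∈ l.getLast?, ∀ b ∈ l.head?, a ≠ b → G.Adj a b

/-- generalised cycle on the vertex set `S` with `n` vertices -/
def GC (G : SimpleGraph V) (n : ℕ) (S : Finset V) : Prop :=
  ∃ l : List V, CL G l ∧ l.length = n ∧ l.toFinset = S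

structure IsC (G : SimpleGraph V) {n : ℕ} (c : ZMod n → V) : Prop where
  inj : Function.Injective c
  adj : ∀ i, i + 1 ≠ i → G.Adj (c i) (c (i + 1))

lemma GC.card {G : SimpleGraph V} {n : ℕ} {S : Finset V} (h : GC G n S) : S.card = n := by
  obtain ⟨l, hl, h1, h2⟩ := h
  rw [← h2, List.toFinset_card_of_nodup hl.nodup, h1]

lemma GC.pos {G : SimpleGraph V} {n : ℕ} {S : Finset V} (h : GC G n S) : 0 < n := by
  obtain ⟨l, hl, h1, h2⟩ := h
  rw [← h1]
  exact List.length_pos_iff.2 hl.ne

lemma CL.toGC {G : SimpleGraph V} {l : List V} (h : CL G l) {n : ℕ} (hn : l.length = n) :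
    GC G n l.toFinset := ⟨l, h, hn, rfl⟩

lemma GC_singleton (G : SimpleGraph V) (x : V) : GC G 1 {x} := by
  refine ⟨[x], ⟨by simp, by simp, by simp, ?_⟩, rfl, by simp⟩
  intro a ha b hb hab
  simp at ha hb
  subst ha; subst hb; exact absurd rfl hab

lemma natCast_inj_of_lt {n : ℕ} {t t' : ℕ} (h : t < n) (h' : t' < n)
    (e : (t : ZMod n) = (t' : ZMod n)) : t = t' := by
  rw [ZMod.natCast_eq_natCast_iff'] at e
  rwa [Nat.mod_eq_of_lt h, Nat.mod_eq_of_lt h'] at e

lemma CL.exists_zmod {G : SimpleGraph V} {l : List V} (h : CL G l) {n : ℕ} (hn : l.length = n) :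
    ∃ c : ZMod n → V, IsC G c ∧ ∀ x, x ∈ l ↔ ∃ i, c i = x := by
  subst hn
  have hpos : 0 < l.length := List.length_pos_iff.2 h.ne
  have : NeZero l.length := ⟨hpos.ne'⟩
  refine ⟨fun i => l[i.val]'(ZMod.val_lt i), ⟨?_, ?_⟩, ?_⟩
  · intro i j hij
    have := (List.Nodup.getElem_inj_iff h.nodup).1 hij
    exact ZMod.val_injective _ this
  · intro i hi
    have key : ∀ t (ht : t < l.length), l[((t : ℕ) : ZMod l.length).val]'(ZMod.val_lt _) = l[t] := by
      intro t ht
      congr 1
      exact ZMod.val_natCast_of_lt ht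
    have hil := ZMod.val_lt i
    have hii : i = ((i.val : ℕ) : ZMod l.length) := (ZMod.natCast_zmod_val i).symm
    by_cases hlt : i.val + 1 < l.length
    · have h1 : i + 1 = ((i.val + 1 : ℕ) : ZMod l.length) := by
        push_cast
        rw [← hii]
      have h2 : l[(i + 1).val]'(ZMod.val_lt _) = l[i.val + 1] := by
        rw [← key _ hlt]
        congr 2
      show G.Adj (l[i.val]'_) (l[(i+1).val]'_)
      rw [h2]
      exact List.isChain_iff_getElem.1 h.chain _ hlt
    · have h0 : i.val + 1 = l.length := by omega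
      have h1 : i + 1 = ((0 : ℕ) : ZMod l.length) := by
        have : ((i.val + 1 : ℕ) : ZMod l.length) = 0 := by
          rw [h0]; exact ZMod.natCast_self _
        push_cast at this ⊢
        rw [← hii] at this
        exact this
      have h2 : l[(i + 1).val]'(ZMod.val_lt _) = l[0] := by
        rw [← key _ hpos]
        congr 2
      show G.Adj (l[i.val]'_) (l[(i+1).val]'_)
      rw [h2]
      have hne : i.val ≠ 0 := by
        intro h3
        apply hi
        rw [h1, hii, h3]
      apply h.close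
      · rw [List.getLast?_eq_getElem?]
        have : l.length - 1 = i.val := by omega
        rw [this]
        simp [hil]
      · rw [List.head?_eq_getElem?]
        simp [hpos]
      · intro h4
        have := (List.Nodup.getElem_inj_iff h.nodup).1 h4
        exact hne this
  · intro x
    constructor
    · intro hx
      obtain ⟨t, ht, rfl⟩ := List.getElem_of_mem hx
      refine ⟨(t : ZMod l.length), ?_⟩
      show l[((t : ℕ) : ZMod l.length).val]'_ = _
      congr 1
      exact ZMod.val_natCast_of_lt ht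
    · rintro ⟨i, rfl⟩
      exact List.getElem_mem _

lemma GC.exists_zmod {G : SimpleGraph V} {n : ℕ} {S : Finset V} (h : GC G n S) :
    ∃ c : ZMod n → V, IsC G c ∧ ∀ x, x ∈ S ↔ ∃ i, c i = x := by
  obtain ⟨l, hl, h1, h2⟩ := h
  obtain ⟨c, hc, hc'⟩ := hl.exists_zmod h1
  refine ⟨c, hc, fun x => ?_⟩
  rw [← hc' x, ← h2, List.mem_toFinset]

/-- an arc of the cyclic sequence -/
def arc {n : ℕ} (c : ZMod n → V) (a : ZMod n) (len : ℕ) : List V :=
  (List.range len).map (fun t => c (a + (t : ℕ)))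

@[simp] lemma arc_length {n : ℕ} (c : ZMod n → V) (a : ZMod n) (len : ℕ) :
    (arc c a len).length = len := by simp [arc]

lemma mem_arc {n : ℕ} (c : ZMod n → V) (a : ZMod n) (len : ℕ) (x : V) :
    x ∈ arc c a len ↔ ∃ t < len, c (a + (t : ℕ)) = x := by
  simp [arc]

lemma IsC.arc_nodup {G : SimpleGraph V} {n : ℕ} {c : ZMod n → V} (hc : IsC G c) (a : ZMod n)
    {len : ℕ} (h : len ≤ n) : (arc c a len).Nodup := by
  unfold arc
  rw [List.nodup_map_iff_inj_on List.nodup_range]
  intro x hx y hy hxy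
  rw [List.mem_range] at hx hy
  have := hc.inj hxy
  have := add_left_cancel this
  exact natCast_inj_of_lt (by omega) (by omega) this

lemma succ_ne {n : ℕ} (hn : n ≠ 1) (i : ZMod n) : i + 1 ≠ i := by
  intro h
  have h1 : (1 : ZMod n) = 0 := by
    have : i + 1 = i + 0 := by rw [h, add_zero]
    exact add_left_cancel this
  have h2 : ((1 : ℕ) : ZMod n) = 0 := by exact_mod_cast h1
  rw [ZMod.natCast_eq_zero_iff] at h2
  exact hn (Nat.dvd_one.1 h2)

lemma IsC.adj' {G : SimpleGraph V} {n : ℕ} {c : ZMod n → V} (hc : IsC G c) (hn : n ≠ 1) (i : ZMod n) :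
    G.Adj (c i) (c (i + 1)) := hc.adj i (succ_ne hn i)

lemma IsC.arc_chain {G : SimpleGraph V} {n : ℕ} {c : ZMod n → V} (hc : IsC G c) (a : ZMod n)
    {len : ℕ} (h : n ≠ 1 ∨ len ≤ 1) : (arc c a len).IsChain G.Adj := by
  rw [List.isChain_iff_getElem]
  intro i hi
  rw [arc_length] at hi
  have hn : n ≠ 1 := by omega
  simp only [arc, List.getElem_map, List.getElem_range]
  have := hc.adj' hn (a + (i : ℕ))
  push_cast
  rw [← add_assoc]
  exact this

lemma arc_head? {n : ℕ} (c : ZMod n → V) (a : ZMod n) {len : ℕ} (h : 0 < len) :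
    (arc c a len).head? = some (c a) := by
  rw [List.head?_eq_getElem?]
  simp [arc, h]

lemma arc_getLast? {n : ℕ} (c : ZMod n → V) (a : ZMod n) {len : ℕ} (h : 0 < len) :
    (arc c a len).getLast? = some (c (a + ((len - 1 : ℕ) : ZMod n))) := by
  rw [List.getLast?_eq_getElem?]
  simp [arc, h]

lemma arc_ne_nil {n : ℕ} (c : ZMod n → V) (a : ZMod n) {len : ℕ} (h : 0 < len) :
    arc c a len ≠ [] := by
  rw [← List.length_pos_iff, arc_length]; exact h

lemma mem_arc_full {n : ℕ} (hn : n ≠ 0) (c : ZMod n → V) (a : ZMod n) (x : V) :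
    x ∈ arc c a n ↔ ∃ i, c i = x := by
  have : NeZero n := ⟨hn⟩
  rw [mem_arc]
  constructor
  · rintro ⟨t, _, h⟩; exact ⟨_, h⟩
  · rintro ⟨i, rfl⟩
    refine ⟨(i - a).val, ZMod.val_lt _, ?_⟩
    rw [ZMod.natCast_zmod_val]
    congr 1
    ring

lemma mem_arc_pred {n : ℕ} (hn : n ≠ 0) {G : SimpleGraph V} {c : ZMod n → V} (hc : IsC G c)
    (a : ZMod n) (x : V) :
    x ∈ arc c (a + 1) (n - 1) ↔ (∃ i, c i = x) ∧ x ≠ c a := by
  have : NeZero n := ⟨hn⟩
  rw [mem_arc]
  constructor
  · rintro ⟨t, ht, h⟩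
    refine ⟨⟨_, h⟩, ?_⟩
    rintro rfl
    have h1 := hc.inj h
    have h2 : ((t + 1 : ℕ) : ZMod n) = ((0 : ℕ) : ZMod n) := by
      push_cast
      have : a + ((t : ZMod n) + 1) = a + 0 := by
        rw [add_zero, add_comm (t : ZMod n) 1, ← add_assoc]; exact h1
      exact add_left_cancel this
    have := natCast_inj_of_lt (by omega) (by omega) h2
    omega
  · rintro ⟨⟨i, rfl⟩, h⟩
    refine ⟨(i - (a + 1)).val, ?_, ?_⟩
    · have h1 := ZMod.val_lt (i - (a + 1))
      rcases Nat.lt_or_ge (i - (a + 1)).val (n - 1) with h2 | h2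
      · exact h2
      · exfalso
        have h3 : (i - (a+1)).val + 1 = n := by omega
        apply h
        have h4 : (((i - (a + 1)).val + 1 : ℕ) : ZMod n) = 0 := by rw [h3]; exact ZMod.natCast_self _
        push_cast at h4
        rw [ZMod.natCast_zmod_val] at h4
        congr 1
        have : i - (a + 1) + 1 = i - a := by ring
        rw [this] at h4
        exact sub_eq_zero.1 h4
    · rw [ZMod.natCast_zmod_val]
      congr 1
      ring

lemma IsC.arc_full_CL {G : SimpleGraph V} {n : ℕ} (hn : n ≠ 0) {c : ZMod n → V} (hc : IsC G c)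
    (a : ZMod n) : CL G (arc c a n) := by
  refine ⟨arc_ne_nil _ _ (Nat.pos_of_ne_zero hn), hc.arc_nodup a le_rfl, ?_, ?_⟩
  · apply hc.arc_chain
    omega
  · intro x hx y hy hxy
    rw [arc_getLast? _ _ (Nat.pos_of_ne_zero hn)] at hx
    rw [arc_head? _ _ (Nat.pos_of_ne_zero hn)] at hy
    simp only [Option.mem_def, Option.some.injEq] at hx hy
    subst hx; subst hy
    have : a + ((n - 1 : ℕ) : ZMod n) + 1 = a := by
      have h1 : ((n - 1 + 1 : ℕ) : ZMod n) = 0 := by
        rw [Nat.sub_add_cancel (Nat.pos_of_ne_zero hn)]; exact ZMod.natCast_self _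
      push_cast at h1
      rw [add_assoc, h1, add_zero]
    have h2 := hc.adj (a + ((n - 1 : ℕ) : ZMod n))
    rw [this] at h2
    apply h2
    intro h3
    exact hxy (by rw [← h3])

/-- from a cyclic sequence to a `GC` -/
lemma IsC.toGC {G : SimpleGraph V} {n : ℕ} (hn : n ≠ 0) {c : ZMod n → V} (hc : IsC G c)
    {S : Finset V} (hS : ∀ x, x ∈ S ↔ ∃ i, c i = x) : GC G n S := by
  refine ⟨arc c 0 n, hc.arc_full_CL hn 0, arc_length _ _ _, ?_⟩
  ext x
  rw [List.mem_toFinset, mem_arc_full hn, hS]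

/-- insertion of a vertex between two consecutive ones -/
lemma IsC.insert {G : SimpleGraph V} {n : ℕ} (hn : n ≠ 0) {c : ZMod n → V} (hc : IsC G c)
    {S : Finset V} (hS : ∀ x, x ∈ S ↔ ∃ i, c i = x) {x : V} (hx : x ∉ S) {i : ZMod n}
    (h1 : G.Adj x (c i)) (h2 : G.Adj x (c (i + 1))) : GC G (n + 1) (Insert.insert x S) := by
  have hpos := Nat.pos_of_ne_zero hn
  refine ⟨x :: arc c (i + 1) n, ⟨by simp, ?_, ?_, ?_⟩, by simp, ?_⟩
  · rw [List.nodup_cons]
    refine ⟨?_, hc.arc_nodup _ le_rfl⟩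
    rw [mem_arc_full hn, ← hS]; exact hx
  · rw [List.isChain_cons]
    refine ⟨?_, hc.arc_chain _ (by omega)⟩
    rw [arc_head? _ _ hpos]
    simpa using h2
  · intro a ha b hb _
    simp only [List.head?_cons, Option.mem_def, Option.some.injEq] at hb
    subst hb
    rw [List.getLast?_cons_of_ne_nil (arc_ne_nil _ _ hpos), arc_getLast? _ _ hpos] at ha
    simp only [Option.mem_def, Option.some.injEq] at ha
    subst ha
    have : i + 1 + ((n - 1 : ℕ) : ZMod n) = i := by
      have h1 : ((n - 1 + 1 : ℕ) : ZMod n) = 0 := by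
        rw [Nat.sub_add_cancel hpos]; exact ZMod.natCast_self _
      push_cast at h1
      rw [add_assoc, add_comm (1 : ZMod n), h1, add_zero]
    rw [this]
    exact h1.symm
  · ext y
    rw [List.mem_toFinset, List.mem_cons, mem_insert, mem_arc_full hn, hS]

/-- replacing a vertex -/
lemma IsC.replace {G : SimpleGraph V} {n : ℕ} (hn : n ≠ 0) {c : ZMod n → V} (hc : IsC G c)
    {S : Finset V} (hS : ∀ x, x ∈ S ↔ ∃ i, c i = x) {x : V} (hx : x ∉ S) {i : ZMod n}
    (h1 : G.Adj x (c (i - 1))) (h2 : G.Adj x (c (i + 1))) (hn2 : 2 ≤ n) :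
    GC G n (Insert.insert x (S.erase (c i))) := by
  have hpos : 0 < n - 1 := by omega
  refine ⟨x :: arc c (i + 1) (n - 1), ⟨by simp, ?_, ?_, ?_⟩, by simp; omega, ?_⟩
  · rw [List.nodup_cons]
    refine ⟨?_, hc.arc_nodup _ (by omega)⟩
    rw [mem_arc_pred hn hc, ← hS]
    intro h; exact hx h.1
  · rw [List.isChain_cons]
    refine ⟨?_, hc.arc_chain _ (by omega)⟩
    rw [arc_head? _ _ hpos]
    simpa using h2
  · intro a ha b hb _
    simp only [List.head?_cons, Option.mem_def, Option.some.injEq] at hb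
    subst hb
    rw [List.getLast?_cons_of_ne_nil (arc_ne_nil _ _ hpos), arc_getLast? _ _ hpos] at ha
    simp only [Option.mem_def, Option.some.injEq] at ha
    subst ha
    have : i + 1 + ((n - 1 - 1 : ℕ) : ZMod n) = i - 1 := by
      have h1 : ((n - 1 - 1 + 1 + 1 : ℕ) : ZMod n) = 0 := by
        have : n - 1 - 1 + 1 + 1 = n := by omega
        rw [this]; exact ZMod.natCast_self _
      push_cast at h1
      have h2 : i + 1 + ((n - 1 - 1 : ℕ) : ZMod n) = i - 1 + (((n - 1 - 1 : ℕ) : ZMod n) + 1 + 1) := by ring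
      rw [h2, h1, add_zero]
    rw [this]
    exact h1.symm
  · ext y
    rw [List.mem_toFinset, List.mem_cons, mem_insert, mem_arc_pred hn hc, mem_erase, hS]
    tauto

end Pool.Agent.MPd89fb5
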