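import Pool.Agent.Lib.MP_d89fb5_co.Cross

set_option autoImplicit false

namespace Pool.Agent.MPd89fb5

open Finset
open scoped Classical

variable {V : Type}

lemma GC_triangle {G : SimpleGraph V} {u v w : V} (h1 : G.Adj u v) (h2 : G.Adj v w) (h3 : G.Adj w u) :
    GC G 3 {u, v, w} := by
  refine ⟨[u, v, w], ⟨by simp, ?_, ?_, ?_⟩, rfl, by simp⟩
  · simp [h1.ne, h2.ne, h3.ne']
  · simp [h1, h2]
  · intro a ha b hb _
    simp at ha hb
    subst ha; subst hb
    exact h3

/-- the graph on `W` -/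
def sub (G : SimpleGraph V) (W : Finset V) : SimpleGraph V where
  Adj x y := G.Adj x y ∧ x ∈ W ∧ y ∈ W
  symm := ⟨fun _ _ h => ⟨h.1.symm, h.2.2, h.2.1⟩⟩
  loopless := ⟨fun _ h => G.irrefl h.1⟩

lemma sub_reach {G : SimpleGraph V} {W : Finset V} {x y : V} (hx : x ∈ W) (h : (sub G W).Reachable x y) :
    y ∈ W := by
  obtain ⟨p⟩ := h
  induction p with
  | nil => exact hx
  | cons h _ ih => exact ih h.2.2

lemma exists_path {G : SimpleGraph V} {W : Finset V} {x y : V} (hx : x ∈ W) (h : (sub G W).Reachable x y) :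
    ∃ Q : List V, Q.Nodup ∧ Q.IsChain G.Adj ∧ Q.head? = some x ∧ Q.getLast? = some y ∧ ∀ z ∈ Q, z ∈ W := by
  obtain ⟨p⟩ := h
  refine ⟨p.bypass.support, (p.bypass_isPath).support_nodup, ?_, ?_, ?_, ?_⟩
  · exact (p.bypass.isChain_adj_support).imp (fun _ _ h => h.1)
  · rw [List.head?_eq_some_head p.bypass.support_ne_nil, p.bypass.head_support]
  · rw [List.getLast?_eq_some_getLast p.bypass.support_ne_nil, p.bypass.getLast_support]
  · intro z hz
    exact sub_reach hx ⟨p.bypass.takeUntil z hz⟩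

theorem EG_aux (L : ℕ) (hL : 2 ≤ L) : ∀ (N : ℕ) (G : SimpleGraph V) (A : Finset V), A.card = N → 1 ≤ N →
    (∀ n S, S ⊆ A → GC G n S → 3 ≤ n → n ≤ L) → E G A A ≤ L * (N - 1) := by
  intro N
  induction N using Nat.strong_induction_on with
  | _ N ih =>
  intro G A hA hN hcyc
  rcases Nat.lt_or_ge N 2 with hN2 | hN2
  · have h1 : N = 1 := by omega
    have h2 := E_self_le G A
    rw [hA, h1] at h2
    omega
  -- isolated vertices
  by_cases hiso : ∃ v ∈ A, dg G v A = 0
  · obtain ⟨v, hv, hv0⟩ := hiso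
    have h1 := E_erase G hv
    have h2 := ih (N - 1) (by omega) G (A.erase v) (by rw [card_erase_of_mem hv, hA]) (by omega)
      (fun n S hS => hcyc n S (hS.trans (erase_subset _ _)))
    have h3 : L * (N - 1 - 1) ≤ L * (N - 1) := Nat.mul_le_mul_left _ (by omega)
    omega
  push Not at hiso
  -- contractible edges
  by_cases hcon : ∃ u ∈ A, ∃ v ∈ A, G.Adj u v ∧ 2 * (1 + cod G u v A) ≤ L
  · obtain ⟨u, hu, v, hv, huv, hL2⟩ := hcon
    have h1 := contr_E hu hv huv
    have h2 := ih (N - 1) (by omega) (contr G u v) (A.erase v) (by rw [card_erase_of_mem hv, hA]) (by omega) (by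
      intro n S hS hGC hn
      have hvS : v ∉ S := fun h => (mem_erase.1 (hS h)).1 rfl
      rcases GC_lift huv hn hGC hvS with h | ⟨_, n', hn', S', hS', hGC'⟩
      · exact hcyc n S (hS.trans (erase_subset _ _)) h.2 hn
      · refine hn'.le.trans (hcyc n' S' ?_ hGC' (by omega))
        refine hS'.trans ?_
        intro x hx
        rw [mem_insert] at hx
        rcases hx with rfl | hx
        · exact hv
        · exact (mem_erase.1 (hS hx)).2)
    have h3 : L * (N - 1) = L * (N - 1 - 1) + L := by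
      have : N - 1 = (N - 1 - 1) + 1 := by omega
      conv_lhs => rw [this]
      ring
    omega
  push Not at hcon
  -- a longest cycle
  have hex : ∃ z, 3 ≤ z ∧ (∃ S ⊆ A, GC G z S) ∧ ∀ n S, S ⊆ A → GC G n S → 3 ≤ n → n ≤ z := by
    obtain ⟨v, hv⟩ := card_pos.1 (by omega : 0 < A.card)
    have h1 := hiso v hv
    obtain ⟨u, hu⟩ := card_pos.1 (Nat.pos_of_ne_zero h1)
    rw [mem_filter] at hu
    have h2 := hcon v hv u hu.1 hu.2
    obtain ⟨w, hw⟩ := card_pos.1 (show 0 < (A.filter (fun x => G.Adj v x ∧ G.Adj u x)).card by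
      have : cod G v u A = (A.filter (fun x => G.Adj v x ∧ G.Adj u x)).card := rfl
      omega)
    rw [mem_filter] at hw
    have h3 : GC G 3 {v, u, w} := GC_triangle hu.2 hw.2.2 hw.2.1.symm
    have h4 : ({v, u, w} : Finset V) ⊆ A := by
      intro x hx
      simp only [mem_insert, mem_singleton] at hx
      rcases hx with rfl | rfl | rfl
      · exact hv
      · exact hu.1
      · exact hw.1
    have hP3 : ∃ S ⊆ A, GC G 3 S := ⟨_, h4, h3⟩
    let Pz : ℕ → Prop := fun z => ∃ S ⊆ A, GC G z S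
    have hbd : ∀ n, 3 ≤ n → Pz n → n ≤ L := by
      rintro n hn ⟨S, hS, hG⟩
      exact hcyc n S hS hG hn
    have h3L : 3 ≤ L := hbd 3 le_rfl hP3
    refine ⟨Nat.findGreatest Pz L, ?_, ?_, ?_⟩
    · exact Nat.le_findGreatest h3L hP3
    · have := Nat.findGreatest_spec (P := Pz) h3L hP3
      exact this
    · intro n S hS hG hn
      exact Nat.le_findGreatest (hbd n hn ⟨S, hS, hG⟩) ⟨S, hS, hG⟩
  obtain ⟨z, hz3, ⟨Z, hZA, hZ⟩, hzmax⟩ := hex
  have hzL : z ≤ L := hcyc z Z hZA hZ hz3
  have : NeZero z := ⟨by omega⟩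
  have hZcard := hZ.card
  obtain ⟨c, hc, hcZ⟩ := hZ.exists_zmod
  have hcZ' : ∀ i, c i ∈ Z := fun i => (hcZ _).2 ⟨i, rfl⟩
  have hdeg : ∀ i, z + 1 ≤ 2 * dg G (c i) Z := by
    intro i
    have hadj := hc.adj' (by omega) i
    have h1 := hcon (c i) (hZA (hcZ' _)) (c (i + 1)) (hZA (hcZ' _)) hadj
    have h2 : cod G (c i) (c (i + 1)) A + 1 ≤ dg G (c i) Z := by
      have h3 : A.filter (fun x => G.Adj (c i) x ∧ G.Adj (c (i + 1)) x) ⊆
          (Z.filter (fun x => G.Adj (c i) x)).erase (c (i + 1)) := by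
        intro x hx
        rw [mem_filter] at hx
        rw [mem_erase, mem_filter]
        refine ⟨hx.2.2.ne', ?_, hx.2.1⟩
        by_contra hxZ
        have h4 := hc.insert (by omega) hcZ hxZ hx.2.1.symm hx.2.2.symm
        have h5 := hzmax (z + 1) _ (by
          intro y hy
          rw [mem_insert] at hy
          rcases hy with rfl | hy
          · exact hx.1
          · exact hZA hy) h4 (by omega)
        omega
      have h4 := card_le_card h3
      rw [card_erase_of_mem (mem_filter.2 ⟨hcZ' _, hadj⟩)] at h4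
      have h5 : 0 < (Z.filter (fun x => G.Adj (c i) x)).card :=
        card_pos.2 ⟨_, mem_filter.2 ⟨hcZ' (i + 1), hadj⟩⟩
      have h6 : 0 < dg G (c i) Z := h5
      have h7 : cod G (c i) (c (i + 1)) A ≤ dg G (c i) Z - 1 := h4
      omega
    omega
  by_cases hZA' : Z = A
  · subst hZA'
    have h1 := E_self_le G Z
    rw [hA] at h1
    have h2 : z = N := by omega
    calc E G Z Z ≤ N * (N - 1) := h1
      _ ≤ L * (N - 1) := Nat.mul_le_mul_right _ (by omega)
  · obtain ⟨x0, hx0A, hx0Z⟩ := exists_of_ssubset (hZA.ssubset_of_ne hZA')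
    set W := A \ Z with hW
    have hx0 : x0 ∈ W := mem_sdiff.2 ⟨hx0A, hx0Z⟩
    set K := W.filter (fun y => (sub G W).Reachable x0 y) with hK
    have hx0K : x0 ∈ K := mem_filter.2 ⟨hx0, SimpleGraph.Reachable.refl _⟩
    have hKW : K ⊆ W := filter_subset _ _
    have hKA : K ⊆ A := hKW.trans sdiff_subset
    have hatt : ∀ k1 ∈ K, ∀ k2 ∈ K, ∀ i j, G.Adj k1 (c i) → G.Adj k2 (c j) → i = j := by
      intro k1 hk1 k2 hk2 i j h1 h2
      by_contra hij
      have hr : (sub G W).Reachable k1 k2 := (mem_filter.1 hk1).2.symm.trans (mem_filter.1 hk2).2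
      obtain ⟨Q, hQnd, hQch, hQ1, hQ2, hQW⟩ := exists_path (mem_filter.1 hk1).1 hr
      have h3 := crossing hz3 hc hcZ hQnd hQch hQ1 hQ2 (fun x hx => (mem_sdiff.1 (hQW x hx)).2) hij h1 h2 (by
        intro l' hl' hl'm
        by_contra hcon2
        have := hzmax l'.length l'.toFinset (by
          intro x hx
          rw [List.mem_toFinset] at hx
          rcases hl'm x hx with h | h
          · exact hZA h
          · exact (mem_sdiff.1 (hQW x h)).1) (hl'.toGC rfl) (by omega)
        omega)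
      have h4 := hdeg (i + 1)
      have h5 := hdeg (j + 1)
      omega
    obtain ⟨i0, hi0⟩ : ∃ i0, ∀ k ∈ K, ∀ i, G.Adj k (c i) → i = i0 := by
      by_cases hex2 : ∃ k ∈ K, ∃ i, G.Adj k (c i)
      · obtain ⟨k, hk, i, hki⟩ := hex2
        exact ⟨i, fun k' hk' i' h => hatt k' hk' k hk i' i h hki⟩
      · exact ⟨0, fun k hk i h => absurd ⟨k, hk, i, h⟩ hex2⟩
    have hv0Z := hcZ' i0
    have hv0K : c i0 ∉ K := fun h => (mem_sdiff.1 (hKW h)).2 hv0Z
    have hout : E G K (A \ K) = dg G (c i0) K := by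
      rw [E_symm]
      have e : A \ K = insert (c i0) ((A \ K).erase (c i0)) := by
        rw [insert_erase (mem_sdiff.2 ⟨hZA hv0Z, hv0K⟩)]
      rw [e]
      have e2 : insert (c i0) ((A \ K).erase (c i0)) = {c i0} ∪ ((A \ K).erase (c i0)) := rfl
      rw [e2, E_union_left G K (by simp), E_singleton]
      have : E G ((A \ K).erase (c i0)) K = 0 := by
        unfold E
        apply sum_eq_zero
        intro x hx
        unfold dg
        rw [card_eq_zero, filter_eq_empty_iff]
        intro k hk hxk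
        rw [mem_erase, mem_sdiff] at hx
        by_cases hxZ : x ∈ Z
        · obtain ⟨i, rfl⟩ := (hcZ x).1 hxZ
          apply hx.1
          rw [hi0 k hk i hxk.symm]
        · apply hx.2.2
          have hxW : x ∈ W := mem_sdiff.2 ⟨hx.2.1, hxZ⟩
          refine mem_filter.2 ⟨hxW, (mem_filter.1 hk).2.trans ?_⟩
          exact SimpleGraph.Adj.reachable ⟨hxk.symm, hKW hk, hxW⟩
      rw [this, add_zero]
    have hsplit : E G A A = E G (insert (c i0) K) (insert (c i0) K) + E G (A \ K) (A \ K) := by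
      have e : A = K ∪ (A \ K) := (union_sdiff_of_subset hKA).symm
      conv_lhs => rw [e]
      rw [E_self_union G disjoint_sdiff, hout, E_insert G hv0K]
    have hKcard : K.card + z ≤ N := by
      have h1 : Disjoint K Z := by
        rw [Finset.disjoint_left]
        intro x hx hxZ
        exact (mem_sdiff.1 (hKW hx)).2 hxZ
      have h2 := card_le_card (union_subset hKA hZA)
      rw [card_union_of_disjoint h1, hZcard, hA] at h2
      exact h2
    have hKpos : 0 < K.card := card_pos.2 ⟨x0, hx0K⟩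
    have h1 := ih (K.card + 1) (by omega) G (insert (c i0) K) (card_insert_of_notMem hv0K) (by omega) (by
      intro n S hS
      apply hcyc n S
      refine hS.trans ?_
      intro x hx
      rw [mem_insert] at hx
      rcases hx with rfl | hx
      · exact hZA hv0Z
      · exact hKA hx)
    have h2 := ih (N - K.card) (by omega) G (A \ K) (by rw [card_sdiff_of_subset hKA, hA]) (by omega)
      (fun n S hS => hcyc n S (hS.trans sdiff_subset))
    rw [hsplit]
    have h3 : L * (K.card + 1 - 1) + L * (N - K.card - 1) = L * (N - 1) := by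
      rw [← mul_add]
      congr 1
      omega
    omega

/-- Erdős–Gallai: if all cycles of `G[A]` have at most `L` vertices then `2 e(A) ≤ L (|A| - 1)` -/
theorem EG (G : SimpleGraph V) (L : ℕ) (hL : 2 ≤ L) (A : Finset V) (hA : A.Nonempty)
    (h : ∀ n S, S ⊆ A → GC G n S → 3 ≤ n → n ≤ L) : E G A A ≤ L * (A.card - 1) :=
  EG_aux L hL A.card G A rfl (card_pos.2 hA) h

end Pool.Agent.MPd89fb5
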