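import Pool.Agent.Lib.MP_d89fb5_co.Count

set_option autoImplicit false

namespace Pool.Agent.MPd89fb5

open Finset
open scoped Classical

variable {V : Type}

/-- number of entries of the list with property `p` -/
noncomputable def np (p : V → Prop) : List V → ℕ
  | [] => 0
  | a :: l => (if p a then 1 else 0) + np p l

/-- number of consecutive pairs of the list both with property `p` -/
noncomputable def gp (p : V → Prop) : List V → ℕ
  | [] => 0
  | [_] => 0
  | a :: b :: l => (if p a ∧ p b then 1 else 0) + gp p (b :: l)

lemma np_le_length (p : V → Prop) (l : List V) : np p l ≤ l.length := by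
  induction l with
  | nil => simp [np]
  | cons a l ih =>
    simp only [np, List.length_cons]
    split_ifs <;> omega

lemma np_append (p : V → Prop) (l₁ l₂ : List V) : np p (l₁ ++ l₂) = np p l₁ + np p l₂ := by
  induction l₁ with
  | nil => simp [np]
  | cons a l ih =>
    simp only [np, List.cons_append, ih]
    ring

lemma np_reverse (p : V → Prop) (l : List V) : np p l.reverse = np p l := by
  induction l with
  | nil => simp
  | cons a l ih =>
    rw [List.reverse_cons, np_append, ih]
    simp only [np]
    ring

lemma gp_le_cons (p : V → Prop) (a : V) (l : List V) : gp p l ≤ gp p (a :: l) := by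
  cases l with
  | nil => simp [gp]
  | cons b l => simp only [gp]; omega

lemma gp_cons_le (p : V → Prop) (a : V) (l : List V) : gp p (a :: l) ≤ gp p l + 1 := by
  cases l with
  | nil => simp [gp]
  | cons b l => simp only [gp]; split_ifs <;> omega

lemma gp_append (p : V → Prop) (l₁ l₂ : List V) : gp p l₁ + gp p l₂ ≤ gp p (l₁ ++ l₂) := by
  induction l₁ with
  | nil => simp [gp]
  | cons a l ih =>
    cases l with
    | nil =>
      simp only [gp, List.cons_append, List.nil_append]
      have := gp_le_cons p a l₂
      omega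
    | cons b l =>
      simp only [gp, List.cons_append] at ih ⊢
      omega

lemma gp_append_le (p : V → Prop) (l₁ l₂ : List V) : gp p (l₁ ++ l₂) ≤ gp p l₁ + gp p l₂ + 1 := by
  induction l₁ with
  | nil => simp [gp]
  | cons a l ih =>
    cases l with
    | nil =>
      simp only [gp, List.cons_append, List.nil_append]
      have := gp_cons_le p a l₂
      omega
    | cons b l =>
      simp only [gp, List.cons_append] at ih ⊢
      omega

lemma gp_concat (p : V → Prop) (l : List V) (a b : V) :
    gp p (l ++ [a, b]) = gp p (l ++ [a]) + if p a ∧ p b then 1 else 0 := by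
  induction l with
  | nil => simp [gp]
  | cons x l ih =>
    cases l with
    | nil => simp only [gp, List.cons_append, List.nil_append]; ring
    | cons y l =>
      simp only [gp, List.cons_append] at ih ⊢
      omega

lemma gp_reverse (p : V → Prop) (l : List V) : gp p l.reverse = gp p l := by
  induction l with
  | nil => simp
  | cons a l ih =>
    cases l with
    | nil => simp
    | cons b l =>
      simp only [List.reverse_cons, List.append_assoc, List.cons_append, List.nil_append] at ih ⊢
      rw [gp_concat, ih]
      simp only [gp]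
      have : (p b ∧ p a) ↔ (p a ∧ p b) := and_comm
      simp only [this]
      ring

lemma two_np (p : V → Prop) (l : List V) :
    2 * np p l ≤ gp p l + l.length + (if ∃ a ∈ l.head?, p a then 1 else 0) := by
  induction l with
  | nil => simp [np]
  | cons a l ih =>
    cases l with
    | nil =>
      simp only [np, gp, List.length_cons, List.length_nil, List.head?_cons, Option.mem_def,
        Option.some.injEq, exists_eq_left']
      split_ifs <;> omega
    | cons b l =>
      simp only [np, gp, List.length_cons, List.head?_cons, Option.mem_def,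
        Option.some.injEq, exists_eq_left'] at ih ⊢
      by_cases ha : p a <;> by_cases hb : p b <;> simp only [ha, hb, and_true, and_false, and_self,
        if_true, if_false] at ih ⊢ <;> omega

lemma two_np' (p : V → Prop) (l : List V) : 2 * np p l ≤ gp p l + l.length + 1 := by
  have := two_np p l
  split_ifs at this <;> omega

lemma exists_gap (p : V → Prop) (l : List V) (h : 1 ≤ gp p l) :
    ∃ l₁ a b l₂, l = l₁ ++ a :: b :: l₂ ∧ p a ∧ p b := by
  induction l with
  | nil => simp [gp] at h
  | cons a l ih =>
    cases l with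
    | nil => simp [gp] at h
    | cons b l =>
      by_cases hab : p a ∧ p b
      · exact ⟨[], a, b, l, rfl, hab.1, hab.2⟩
      · simp only [gp, hab, if_false, zero_add] at h
        obtain ⟨l₁, a', b', l₂, h1, h2, h3⟩ := ih h
        exact ⟨a :: l₁, a', b', l₂, by rw [h1]; rfl, h2, h3⟩

lemma gp_insert (q : V → Prop) (l₁ l₂ : List V) (a b y : V) :
    gp q (l₁ ++ a :: b :: l₂) ≤ gp q (l₁ ++ a :: y :: b :: l₂) + 1 := by
  have e1 : l₁ ++ a :: b :: l₂ = (l₁ ++ [a]) ++ (b :: l₂) := by simp
  have e2 : l₁ ++ a :: y :: b :: l₂ = (l₁ ++ [a]) ++ (y :: b :: l₂) := by simp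
  rw [e1, e2]
  have h1 := gp_append_le q (l₁ ++ [a]) (b :: l₂)
  have h2 := gp_append q (l₁ ++ [a]) (y :: b :: l₂)
  have h3 := gp_le_cons q y (b :: l₂)
  omega

/-- inserting several vertices into a path -/
lemma insert_many (G : SimpleGraph V) : ∀ (q : ℕ) (Y : Finset V) (l : List V), Y.card = q →
    l.Nodup → l.IsChain G.Adj → (∀ y ∈ Y, y ∉ l) → (∀ y ∈ Y, q ≤ gp (G.Adj y) l) →
    ∃ l' : List V, l'.Nodup ∧ l'.IsChain G.Adj ∧ l'.head? = l.head? ∧ l'.getLast? = l.getLast? ∧
      (∀ x, x ∈ l' ↔ x ∈ l ∨ x ∈ Y) ∧ l'.length = l.length + q := by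
  intro q
  induction q with
  | zero =>
    intro Y l hY h1 h2 h3 h4
    rw [card_eq_zero] at hY
    subst hY
    exact ⟨l, h1, h2, rfl, rfl, by simp, rfl⟩
  | succ q ih =>
    intro Y l hY h1 h2 h3 h4
    have hne : Y.Nonempty := card_pos.1 (by omega)
    obtain ⟨y, hy⟩ := hne
    obtain ⟨l₁, a, b, l₂, rfl, ha, hb⟩ := exists_gap (G.Adj y) l (by have := h4 y hy; omega)
    have hyl := h3 y hy
    have hmem : ∀ x, x ∈ l₁ ++ a :: y :: b :: l₂ ↔ x ∈ l₁ ++ a :: b :: l₂ ∨ x = y := by
      intro x
      simp only [List.mem_append, List.mem_cons]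
      tauto
    have h1' : (l₁ ++ a :: y :: b :: l₂).Nodup := by
      have e : (l₁ ++ a :: y :: b :: l₂).Perm (y :: (l₁ ++ a :: b :: l₂)) := by
        have e1 : l₁ ++ a :: y :: b :: l₂ = (l₁ ++ [a]) ++ (y :: (b :: l₂)) := by simp
        have e2 : l₁ ++ a :: b :: l₂ = (l₁ ++ [a]) ++ (b :: l₂) := by simp
        rw [e1, e2]
        exact List.perm_middle
      rw [e.nodup_iff, List.nodup_cons]
      exact ⟨hyl, h1⟩
    have h2' : (l₁ ++ a :: y :: b :: l₂).IsChain G.Adj := by
      rw [List.isChain_append_cons_cons] at h2 ⊢
      refine ⟨h2.1, ha.symm, ?_⟩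
      rw [List.isChain_cons_cons]
      exact ⟨hb, h2.2.2⟩
    obtain ⟨l', g1, g2, g3, g4, g5, g6⟩ := ih (Y.erase y) (l₁ ++ a :: y :: b :: l₂)
      (by rw [card_erase_of_mem hy, hY]; rfl) h1' h2' (by
        intro z hz
        rw [hmem]
        rw [mem_erase] at hz
        push Not
        exact ⟨h3 z hz.2, hz.1⟩) (by
        intro z hz
        rw [mem_erase] at hz
        have := h4 z hz.2
        have := gp_insert (G.Adj z) l₁ l₂ a b y
        omega)
    refine ⟨l', g1, g2, ?_, ?_, ?_, ?_⟩
    · rw [g3]; cases l₁ <;> simp
    · rw [g4]; simp [List.getLast?_append]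
    · intro x
      rw [g5, hmem, mem_erase]
      constructor
      · rintro ((h | h) | h)
        · exact Or.inl h
        · exact Or.inr (h ▸ hy)
        · exact Or.inr h.2
      · rintro (h | h)
        · exact Or.inl (Or.inl h)
        · by_cases hxy : x = y
          · exact Or.inl (Or.inr hxy)
          · exact Or.inr ⟨hxy, h⟩
    · rw [g6]; simp; omega

lemma exists_cross (p q : V → Prop) (l : List V) (hl : l ≠ [])
    (h : l.length ≤ np p l.dropLast + np q l.tail) :
    ∃ l₁ a b l₂, l = l₁ ++ a :: b :: l₂ ∧ p a ∧ q b := by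
  induction l with
  | nil => exact absurd rfl hl
  | cons a l ih =>
    cases l with
    | nil => simp [np] at h
    | cons b l =>
      by_cases hab : p a ∧ q b
      · exact ⟨[], a, b, l, rfl, hab.1, hab.2⟩
      · have : (b :: l).length ≤ np p (b :: l).dropLast + np q (b :: l).tail := by
          simp only [List.dropLast_cons_cons, List.tail_cons, np, List.length_cons] at h ⊢
          by_cases ha : p a
          · have hb : ¬ q b := fun hb => hab ⟨ha, hb⟩
            simp only [ha, hb, if_true, if_false] at h
            omega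
          · simp only [ha, if_false] at h
            split_ifs at h <;> omega
        obtain ⟨l₁, a', b', l₂, h1, h2, h3⟩ := ih (by simp) this
        exact ⟨a :: l₁, a', b', l₂, by rw [h1]; rfl, h2, h3⟩

lemma np_tail (p : V → Prop) (l : List V) (a : V) (ha : a ∈ l.head?) :
    np p l = np p l.tail + if p a then 1 else 0 := by
  cases l with
  | nil => simp at ha
  | cons b l =>
    simp at ha
    subst ha
    simp only [np, List.tail_cons]
    ring

lemma np_dropLast (p : V → Prop) (l : List V) (a : V) (ha : a ∈ l.getLast?) :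
    np p l = np p l.dropLast + if p a then 1 else 0 := by
  have h1 : l.dropLast ++ [a] = l := List.dropLast_append_getLast? a ha
  conv_lhs => rw [← h1]
  rw [np_append]
  simp [np]

lemma J_core (G : SimpleGraph V) (s : ℕ) (hs : 2 ≤ s) (Y : Finset V) (hY : s ≤ Y.card) :
    ∀ (L : ℕ) (P : List V), P.length = L → P.Nodup → P.IsChain G.Adj → P.length ≤ 2 * s - 2 →
    (∀ y ∈ Y, y ∉ P) → (∀ y ∈ Y, s ≤ np (G.Adj y) P) →
    ∃ l' : List V, CL G l' ∧ l'.length = 2 * s ∧ ∀ x ∈ l', x ∈ P ∨ x ∈ Y := by
  intro L
  induction L with
  | zero =>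
    intro P hL _ _ _ _ h
    obtain ⟨y, hy⟩ := card_pos.1 (by omega : 0 < Y.card)
    have h1 := h y hy
    have h2 := np_le_length (G.Adj y) P
    omega
  | succ L ih =>
    intro P hL hnd hch hlen hYP hnb
    have hPne : P ≠ [] := by
      rw [← List.length_pos_iff]; omega
    by_cases htail : ∀ y ∈ Y, s ≤ np (G.Adj y) P.tail
    · obtain ⟨l', g1, g2, g3⟩ := ih P.tail (by rw [List.length_tail]; omega) hnd.tail hch.tail
        (by rw [List.length_tail]; omega) (fun y hy h => hYP y hy (List.mem_of_mem_tail h)) htail
      exact ⟨l', g1, g2, fun x hx => (g3 x hx).imp_left List.mem_of_mem_tail⟩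
    by_cases hdrop : ∀ y ∈ Y, s ≤ np (G.Adj y) P.dropLast
    · obtain ⟨l', g1, g2, g3⟩ := ih P.dropLast (by rw [List.length_dropLast]; omega)
        (hnd.sublist (List.dropLast_sublist P)) hch.dropLast
        (by rw [List.length_dropLast]; omega) (fun y hy h => hYP y hy (List.mem_of_mem_dropLast h)) hdrop
      exact ⟨l', g1, g2, fun x hx => (g3 x hx).imp_left List.mem_of_mem_dropLast⟩
    push Not at htail hdrop
    obtain ⟨x, hxY, hx⟩ := htail
    obtain ⟨y, hyY, hy⟩ := hdrop
    obtain ⟨hd, hhd⟩ : ∃ hd, P.head? = some hd := by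
      cases P with
      | nil => exact absurd rfl hPne
      | cons a l => exact ⟨a, rfl⟩
    obtain ⟨la, hla⟩ : ∃ la, P.getLast? = some la := ⟨_, List.getLast?_eq_some_getLast hPne⟩
    have hxh : G.Adj x hd := by
      by_contra hcon
      have h1 := np_tail (G.Adj x) P hd hhd
      rw [if_neg hcon] at h1
      have := hnb x hxY
      omega
    have hyl : G.Adj y la := by
      by_contra hcon
      have h1 := np_dropLast (G.Adj y) P la hla
      rw [if_neg hcon] at h1
      have := hnb y hyY
      omega
    have hLs : s ≤ P.length := (hnb x hxY).trans (np_le_length _ _)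
    have hgp : ∀ w ∈ Y, 2 * s - 1 - P.length ≤ gp (G.Adj w) P := by
      intro w hw
      have h1 := hnb w hw
      have h2 := two_np' (G.Adj w) P
      omega
    -- Case A
    have caseA : ∀ x ∈ Y, G.Adj x hd → G.Adj x la →
        ∃ l' : List V, CL G l' ∧ l'.length = 2 * s ∧ ∀ x ∈ l', x ∈ P ∨ x ∈ Y := by
      intro x hxY hxh hxl
      obtain ⟨Y1, hY1, hY1c⟩ := exists_subset_card_eq (s := Y.erase x) (n := 2 * s - 1 - P.length)
        (by rw [card_erase_of_mem hxY]; omega)
      have hY1' : ∀ y ∈ Y1, y ∈ Y ∧ y ≠ x := by
        intro y hy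
        have := hY1 hy
        rw [mem_erase] at this
        exact ⟨this.2, this.1⟩
      obtain ⟨l', g1, g2, g3, g4, g5, g6⟩ := insert_many G _ Y1 P hY1c hnd hch
        (fun y hy => hYP y (hY1' y hy).1) (fun y hy => hgp y (hY1' y hy).1)
      refine ⟨x :: l', ⟨by simp, ?_, ?_, ?_⟩, ?_, ?_⟩
      · rw [List.nodup_cons]
        refine ⟨?_, g1⟩
        rw [g5]
        push Not
        exact ⟨hYP x hxY, fun h => (hY1' x h).2 rfl⟩
      · rw [List.isChain_cons]
        refine ⟨?_, g2⟩
        rw [g3, hhd]
        simpa using hxh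
      · intro a ha b hb _
        simp only [List.head?_cons, Option.mem_def, Option.some.injEq] at hb
        subst hb
        have : l' ≠ [] := by
          rw [← List.length_pos_iff]; omega
        rw [List.getLast?_cons_of_ne_nil this, g4, hla] at ha
        simp only [Option.mem_def, Option.some.injEq] at ha
        subst ha
        exact hxl.symm
      · rw [List.length_cons, g6]; omega
      · intro z hz
        rw [List.mem_cons, g5] at hz
        rcases hz with rfl | hz | hz
        · exact Or.inr hxY
        · exact Or.inl hz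
        · exact Or.inr (hY1' z hz).1
    by_cases hA : G.Adj x la
    · exact caseA x hxY hxh hA
    by_cases hA' : G.Adj y hd
    · exact caseA y hyY hA' hyl
    have hxy : x ≠ y := fun h => hA (h ▸ hyl)
    -- Case B
    obtain ⟨l₁, a, b, l₂, hP, hya, hxb⟩ := exists_cross (G.Adj y) (G.Adj x) P hPne (by
      have h1 := np_tail (G.Adj x) P hd hhd
      have h2 := np_dropLast (G.Adj y) P la hla
      rw [if_pos hxh] at h1
      rw [if_pos hyl] at h2
      have := hnb x hxY
      have := hnb y hyY
      omega)
    let Q : List V := (l₁ ++ [a]) ++ (y :: (b :: l₂).reverse)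
    have hQlen : Q.length = P.length + 1 := by
      simp only [Q, hP, List.length_append, List.length_cons, List.length_reverse, List.length_nil]
      omega
    have hQmem : ∀ z, z ∈ Q ↔ z ∈ P ∨ z = y := by
      intro z
      simp only [Q, hP, List.mem_append, List.mem_cons, List.mem_reverse, List.not_mem_nil, or_false]
      tauto
    have hP2 : P = (l₁ ++ [a]) ++ (b :: l₂) := by rw [hP]; simp
    have hnd2 := hnd
    rw [hP2, List.nodup_append] at hnd2
    have hch2 := hch
    rw [hP2, List.isChain_append] at hch2
    have hyP := hYP y hyY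
    have hQnd : Q.Nodup := by
      simp only [Q]
      rw [List.nodup_append]
      refine ⟨hnd2.1, ?_, ?_⟩
      · rw [List.nodup_cons, List.mem_reverse, List.nodup_reverse]
        refine ⟨?_, hnd2.2.1⟩
        intro h; apply hyP; rw [hP2, List.mem_append]; exact Or.inr h
      · intro z hz w hw
        rw [List.mem_cons, List.mem_reverse] at hw
        rcases hw with rfl | hw
        · rintro rfl
          apply hyP; rw [hP2, List.mem_append]; exact Or.inl hz
        · exact hnd2.2.2 z hz w hw
    have hlast : (b :: l₂).getLast? = some la := by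
      rw [← hla, hP2, List.getLast?_append_of_ne_nil _ (by simp)]
    have hQch : Q.IsChain G.Adj := by
      simp only [Q]
      rw [List.isChain_append]
      refine ⟨hch2.1, ?_, ?_⟩
      · rw [List.isChain_cons, List.isChain_reverse]
        refine ⟨?_, ?_⟩
        · rw [List.head?_reverse, hlast]
          simpa using hyl
        · have : (fun a b => G.Adj b a) = G.Adj := by
            ext u v; exact G.adj_comm _ _
          rw [this]
          exact hch2.2.1
      · simpa using hya.symm
    have hQhead : Q.head? = some hd := by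
      rw [← hhd, hP]
      simp only [Q]
      cases l₁ <;> simp
    have hQlast : Q.getLast? = some b := by
      simp only [Q]
      rw [List.getLast?_append_of_ne_nil _ (by simp),
        List.getLast?_cons_of_ne_nil (by simp), List.getLast?_reverse]
      rfl
    have hQgp : ∀ w ∈ Y, 2 * s - 1 - P.length - 1 ≤ gp (G.Adj w) Q := by
      intro w hw
      have h1 := hgp w hw
      have h2 := gp_append_le (G.Adj w) (l₁ ++ [a]) (b :: l₂)
      rw [← hP2] at h2
      have h3 := gp_append (G.Adj w) (l₁ ++ [a]) (y :: (b :: l₂).reverse)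
      have h4 := gp_le_cons (G.Adj w) y (b :: l₂).reverse
      rw [gp_reverse] at h4
      have h5 : Q = (l₁ ++ [a]) ++ (y :: (b :: l₂).reverse) := rfl
      rw [← h5] at h3
      omega
    obtain ⟨Y1, hY1, hY1c⟩ := exists_subset_card_eq (s := (Y.erase x).erase y)
      (n := 2 * s - 1 - P.length - 1)
      (by rw [card_erase_of_mem (by rw [mem_erase]; exact ⟨hxy.symm, hyY⟩), card_erase_of_mem hxY]; omega)
    have hY1' : ∀ z ∈ Y1, z ∈ Y ∧ z ≠ x ∧ z ≠ y := by
      intro z hz
      have := hY1 hz
      rw [mem_erase, mem_erase] at this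
      exact ⟨this.2.2, this.2.1, this.1⟩
    obtain ⟨l', g1, g2, g3, g4, g5, g6⟩ := insert_many G _ Y1 Q hY1c hQnd hQch
      (fun z hz => by
        rw [hQmem]
        push Not
        exact ⟨hYP z (hY1' z hz).1, (hY1' z hz).2.2⟩) (fun z hz => hQgp z (hY1' z hz).1)
    refine ⟨x :: l', ⟨by simp, ?_, ?_, ?_⟩, ?_, ?_⟩
    · rw [List.nodup_cons]
      refine ⟨?_, g1⟩
      rw [g5, hQmem]
      push Not
      exact ⟨⟨hYP x hxY, hxy⟩, fun h => (hY1' x h).2.1 rfl⟩
    · rw [List.isChain_cons]
      refine ⟨?_, g2⟩
      rw [g3, hQhead]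
      simpa using hxh
    · intro a' ha b' hb _
      simp only [List.head?_cons, Option.mem_def, Option.some.injEq] at hb
      subst hb
      have : l' ≠ [] := by
        rw [← List.length_pos_iff]; omega
      rw [List.getLast?_cons_of_ne_nil this, g4, hQlast] at ha
      simp only [Option.mem_def, Option.some.injEq] at ha
      subst ha
      exact hxb.symm
    · rw [List.length_cons, g6]; omega
    · intro z hz
      rw [List.mem_cons, g5, hQmem] at hz
      rcases hz with rfl | (hz | rfl) | hz
      · exact Or.inr hxY
      · exact Or.inl hz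
      · exact Or.inr hyY
      · exact Or.inr (hY1' z hz).1

end Pool.Agent.MPd89fb5
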