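import Pool.Agent.Lib.MP_d89fb5_co.K2b

set_option autoImplicit false

namespace Pool.Agent.MPd89fb5

open Finset
open scoped Classical

variable {V : Type}

lemma num_i {k r φ DD ECC ECD ECR EDD EDR ERR EAA : ℕ}
    (hi1 : EAA = ECC + 2 * (ECD + ECR) + (EDD + 2 * EDR + ERR))
    (hECC : ECC ≤ (2 * k + 6) * (2 * k + 5))
    (hφ2 : ECD + (k + 3) * φ ≤ (2 * k + 6) * (2 * k + 5))
    (hφ1 : ECR ≤ (k + 3) * r + (k + 2) * φ)
    (hDDE : EDR + DD = (k + 2) * r)
    (hE : 2 * (2 * k + 5) * (2 * k + 6 + (2 * k + 5 + r)) ≤ EAA) :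
    (2 * k + 5) * (2 * k + 4) + 2 * φ + 2 * DD ≤ ERR + EDD := by
  subst hi1
  linarith

lemma num_ii {k r DD EDD EDC EDR EWW dc EAA : ℕ}
    (hii1 : EAA = EDD + 2 * (EDC + EDR) + EWW + 2 * dc)
    (hii2 : EDC ≤ (2 * k + 5) * (2 * k + 5))
    (hii3 : EWW ≤ (2 * k + 5) * (2 * k + 4 + r))
    (hii4 : dc + 1 ≤ 2 * k + 6 + (2 * k + 5 + r))
    (hDDE : EDR + DD = (k + 2) * r)
    (hE : 2 * (2 * k + 5) * (2 * k + 6 + (2 * k + 5 + r)) ≤ EAA) :
    (2 * k + 5) * (2 * k + 4) + 2 * DD ≤ r + EDD := by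
  subst hii1
  linarith

lemma num_k {k DD : ℕ} (h : (k + 1) * (k + 4) + DD ≤ 2 * k + 4) : k = 0 := by
  nlinarith

section
variable {G : SimpleGraph V} {N s : ℕ} [NeZero N] {d : ZMod N → V} {D R : Finset V}

omit [NeZero N] in
lemma cast_ne_zero {t : ℕ} (h0 : 0 < t) (hN : t < N) : (t : ZMod N) ≠ 0 := by
  intro h
  have h1 : (t : ZMod N) = ((0 : ℕ) : ZMod N) := by rw [h]; simp
  have := natCast_inj_of_lt hN (by omega) h1
  omega

lemma nbr_of_star (hN : N = 2 * s - 1) (hs : 3 ≤ s) (hd : IsC G d) (hD : ∀ x, x ∈ D ↔ ∃ i, d i = x)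
    (hno : ∀ n S, S ⊆ D ∪ R → GC G n S → n < 2 * s) {x y : V} (hxR : x ∈ R) (hxD : x ∉ D)
    (hyR : y ∈ R) (hyD : y ∉ D) (hdx : dg G x D = s - 1) (hxy : G.Adj x y) : dg G y D = 0 := by
  set S := pos G d x with hS
  have hSc : S.card = s - 1 := by rw [← hdx, dg_eq_pos hd.inj hD]
  obtain ⟨z, hz1, hz2, hz3⟩ := near_perfect (by omega) hN S hSc (pos_no_consec hN hs hd hD hno hxR hxD)
  by_contra hcon
  obtain ⟨w, hw⟩ := card_pos.1 (Nat.pos_of_ne_zero hcon)
  rw [mem_filter] at hw
  obtain ⟨p, rfl⟩ := (hD w).1 hw.1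
  have hyp := hw.2
  have a1 : p + 1 ∉ S := by
    intro h
    exact two_ext hN hs hd hD hno hxR hxD hyR hyD hxy (p := p) (t := 1) le_rfl (by omega)
      (by have := mem_pos.1 h; push_cast; exact this) hyp
  have a2 : p + 2 ∉ S := by
    intro h
    exact two_ext hN hs hd hD hno hxR hxD hyR hyD hxy (p := p) (t := 2) (by omega) (by omega)
      (by have := mem_pos.1 h; push_cast; exact this) hyp
  have a3 : p - 1 ∉ S := by
    intro h
    exact two_ext hN hs hd hD hno hyR hyD hxR hxD hxy.symm (p := p - 1) (t := 1) le_rfl (by omega)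
      (by push_cast; rw [sub_add_cancel]; exact hyp) (mem_pos.1 h)
  have a4 : p - 2 ∉ S := by
    intro h
    exact two_ext hN hs hd hD hno hyR hyD hxR hxD hxy.symm (p := p - 2) (t := 2) (by omega) (by omega)
      (by push_cast; rw [sub_add_cancel]; exact hyp) (mem_pos.1 h)
  by_cases hp : p ∈ S
  · have hz : p + 2 = z := by
      by_contra h
      rcases hz3 _ h with h' | h'
      · exact a2 h'
      · apply a1
        have : p + 2 - 1 = p + 1 := by ring
        rwa [this] at h'
    have hne : p - 1 ≠ z := by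
      intro h
      rw [← hz] at h
      have h3 : ((3 : ℕ) : ZMod N) = 0 := by
        have : p - 1 + 3 = p - 1 + 0 := by
          rw [add_zero]
          conv_rhs => rw [h]
          ring
        have := add_left_cancel this
        exact_mod_cast this
      exact cast_ne_zero (by omega) (by omega) h3
    rcases hz3 _ hne with h' | h'
    · exact a3 h'
    · apply a4
      have : p - 1 - 1 = p - 2 := by ring
      rwa [this] at h'
  · by_cases hpz : p = z
    · have hne : p + 1 ≠ z := by rw [← hpz]; exact succ_ne (by omega) p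
      rcases hz3 _ hne with h' | h'
      · exact a1 h'
      · rw [add_sub_cancel_right] at h'; exact hp h'
    · rcases hz3 _ hpz with h' | h'
      · exact hp h'
      · exact a3 h'

lemma star_unique (hN : N = 2 * s - 1) (hs : 3 ≤ s) (hd : IsC G d) (hD : ∀ x, x ∈ D ↔ ∃ i, d i = x)
    (hno : ∀ n S, S ⊆ D ∪ R → GC G n S → n < 2 * s) {x y x' : V} (hxR : x ∈ R) (hxD : x ∉ D)
    (hyR : y ∈ R) (hyD : y ∉ D) (hxR' : x' ∈ R) (hxD' : x' ∉ D)
    (hdx : dg G x D = s - 1) (hdx' : dg G x' D = s - 1)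
    (hxy : G.Adj y x) (hxy' : G.Adj y x') : x = x' := by
  by_contra hne
  set S := pos G d x with hS
  have hSc : S.card = s - 1 := by rw [← hdx, dg_eq_pos hd.inj hD]
  obtain ⟨z, hz1, hz2, hz3⟩ := near_perfect (by omega) hN S hSc (pos_no_consec hN hs hd hD hno hxR hxD)
  obtain ⟨w, hw⟩ := card_pos.1 (show 0 < (D.filter (fun b => G.Adj x' b)).card by
    have : dg G x' D = (D.filter (fun b => G.Adj x' b)).card := rfl
    omega)
  rw [mem_filter] at hw
  obtain ⟨p, rfl⟩ := (hD w).1 hw.1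
  have a : ∀ t : ℕ, 1 ≤ t → t ≤ 3 → p + (t : ZMod N) ∉ S := by
    intro t h1 h2 h
    exact three_ext hN hs hd hD hno hxR hxD hyR hyD hxR' hxD' hne hxy.symm hxy'.symm h1 h2
      (mem_pos.1 h) hw.2
  have a1 := a 1 (by omega) (by omega)
  have a2 := a 2 (by omega) (by omega)
  have a3 := a 3 (by omega) (by omega)
  push_cast at a1 a2 a3
  have hz : p + 2 = z := by
    by_contra h
    rcases hz3 _ h with h' | h'
    · exact a2 h'
    · apply a1
      have : p + 2 - 1 = p + 1 := by ring
      rwa [this] at h'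
  have hne3 : p + 3 ≠ z := by
    rw [← hz]
    have : p + 3 = p + 2 + 1 := by ring
    rw [this]
    exact succ_ne (by omega) _
  rcases hz3 _ hne3 with h' | h'
  · exact a3 h'
  · apply a2
    have : p + 3 - 1 = p + 2 := by ring
    rwa [this] at h'

theorem K2 (hN : N = 2 * s - 1) (hs : 3 ≤ s) (hd : IsC G d) (hD : ∀ x, x ∈ D ↔ ∃ i, d i = x)
    {A C : Finset V} (hA : A = C ∪ (D ∪ R)) (hCDR : Disjoint C (D ∪ R)) (hDR : Disjoint D R)
    (hCc : C.card = 2 * s) {φ : ℕ} (hφ1 : E G C R ≤ s * R.card + (s - 1) * φ)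
    (hφ2 : E G C D + (N - N / 2) * φ ≤ 2 * s * N)
    (hφ3 : (R.filter (fun x => s + 1 ≤ dg G x C)).card ≤ 2 * s - 2)
    (hE : 2 * (2 * s - 1) * A.card ≤ E G A A)
    (hdegA : 2 ≤ R.card → ∀ x ∈ R, 2 * s ≤ dg G x A) (hR : 1 ≤ R.card)
    (hno : ∀ n S, S ⊆ D ∪ R → GC G n S → n < 2 * s) {c0 : V} (hc0 : c0 ∈ C)
    (hno2 : ∀ n S, S ⊆ C.erase c0 ∪ R → GC G n S → n < 2 * s) : False := by
  have hDc : D.card = N := by
    have : D = univ.image d := by
      ext x; rw [hD, mem_image]; simp
    rw [this, card_image_of_injective _ hd.inj, card_univ, ZMod.card]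
  have hRD : ∀ x ∈ R, x ∉ D := fun x hx h => Finset.disjoint_left.1 hDR h hx
  have hAc : A.card = 2 * s + (N + R.card) := by
    rw [hA, card_union_of_disjoint hCDR, card_union_of_disjoint hDR, hCc, hDc]
  set DD := ∑ x ∈ R, (s - 1 - dg G x D) with hDD
  have hle : ∀ x ∈ R, dg G x D ≤ s - 1 := fun x hx => dg_le_pred hN hs hd hD hno hx (hRD x hx)
  have hDDE : E G D R + DD = (s - 1) * R.card := by
    rw [E_symm]
    unfold E
    rw [hDD, ← sum_add_distrib]
    calc ∑ x ∈ R, (dg G x D + (s - 1 - dg G x D)) = ∑ x ∈ R, (s - 1) := by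
          apply sum_congr rfl
          intro x hx
          have := hle x hx
          omega
      _ = (s - 1) * R.card := by rw [sum_const, smul_eq_mul]; ring
  have hEDD := E_self_le G D
  rw [hDc] at hEDD
  -- decomposition (i)
  have hi1 : E G A A = E G C C + 2 * (E G C D + E G C R) + (E G D D + 2 * E G D R + E G R R) := by
    rw [hA, E_self_union G hCDR, E_self_union G hDR, E_union_right G C hDR]
  have hECC := E_self_le G C
  rw [hCc] at hECC
  -- decomposition (ii)
  set W := C.erase c0 ∪ R with hW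
  have hCR : Disjoint C R := Finset.disjoint_of_subset_right subset_union_right hCDR
  have hCD : Disjoint C D := Finset.disjoint_of_subset_right subset_union_left hCDR
  have hCeR : Disjoint (C.erase c0) R := Finset.disjoint_of_subset_left (erase_subset _ _) hCR
  have hDW : Disjoint D W := by
    rw [hW, disjoint_union_right]
    exact ⟨(Finset.disjoint_of_subset_left (erase_subset _ _) hCD).symm, hDR⟩
  have hWc : W.card = 2 * s - 1 + R.card := by
    rw [hW, card_union_of_disjoint hCeR, card_erase_of_mem hc0, hCc]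
  have hAe : A.erase c0 = D ∪ W := by
    ext x
    rw [mem_erase, hA, hW, mem_union, mem_union, mem_union, mem_union, mem_erase]
    constructor
    · rintro ⟨h1, h2 | h2 | h2⟩
      · exact Or.inr (Or.inl ⟨h1, h2⟩)
      · exact Or.inl h2
      · exact Or.inr (Or.inr h2)
    · rintro (h2 | h2 | h2)
      · exact ⟨fun h => Finset.disjoint_left.1 hCD (h ▸ hc0) h2, Or.inr (Or.inl h2)⟩
      · exact ⟨h2.1, Or.inl h2.2⟩
      · exact ⟨fun h => Finset.disjoint_left.1 hCR (h ▸ hc0) h2, Or.inr (Or.inr h2)⟩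
  have hc0A : c0 ∈ A := by rw [hA]; exact mem_union_left _ hc0
  have hii1 : E G A A = E G D D + 2 * (E G D (C.erase c0) + E G D R) + E G W W + 2 * dg G c0 A := by
    rw [E_erase G hc0A, hAe, E_self_union G hDW, hW, E_union_right G D hCeR]
  have hii2 : E G D (C.erase c0) ≤ N * (2 * s - 1) := by
    have := E_le G D (C.erase c0)
    rwa [hDc, card_erase_of_mem hc0, hCc] at this
  have hii3 : E G W W ≤ (2 * s - 1) * (W.card - 1) := by
    apply EG G (2 * s - 1) (by omega) W (card_pos.1 (by omega))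
    intro n S hS hG _
    have := hno2 n S hS hG
    omega
  have hii4 := dg_self_lt G hc0A
  rw [hAc] at hE hii4
  rw [hWc] at hii3
  have hhalf : N - N / 2 = s := by omega
  rw [hhalf] at hφ2
  obtain ⟨k, hk⟩ : ∃ k, s = k + 3 := ⟨s - 3, by omega⟩
  set r := R.card with hr
  -- numeric consequences
  have e1 : 2 * s - 1 = 2 * k + 5 := by omega
  have e2 : N = 2 * k + 5 := by omega
  have e3 : s - 1 = k + 2 := by omega
  have e4 : 2 * k + 5 - 1 = 2 * k + 4 := by omega
  have e5 : 2 * k + 5 + r - 1 = 2 * k + 4 + r := by omega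
  have e6 : 2 * s = 2 * k + 6 := by omega
  rw [e2, e4] at hEDD
  rw [e6, show 2 * k + 6 - 1 = 2 * k + 5 by omega] at hECC
  rw [e1, e5] at hii3
  rw [e3] at hφ1 hDDE
  rw [e1, e6, e2] at hE
  rw [e6, e2] at hφ2 hii4
  rw [e2, e1] at hii2
  have hMi : (2 * k + 5) * (2 * k + 4) + 2 * φ + 2 * DD ≤ E G R R + E G D D := by
    subst hk
    exact num_i hi1 hECC hφ2 hφ1 hDDE hE
  have hMii : (2 * k + 5) * (2 * k + 4) + 2 * DD ≤ r + E G D D :=
    num_ii hii1 hii2 hii3 hii4 hDDE hE
  -- R*
  set Rs := R.filter (fun x => dg G x D = s - 1) with hRs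
  set Y0 := R.filter (fun x => dg G x D = 0) with hY0
  have hRsne : Rs.Nonempty := by
    by_contra hcon
    rw [not_nonempty_iff_eq_empty, filter_eq_empty_iff] at hcon
    have : r ≤ DD := by
      rw [hr, hDD, card_eq_sum_ones]
      apply sum_le_sum
      intro x hx
      have h1 := hcon hx
      have h2 := hle x hx
      omega
    omega
  obtain ⟨x0, hx0⟩ := hRsne
  rw [mem_filter] at hx0
  have hmiss := miss_bound hN hs hd hD hno hx0.1 (hRD _ hx0.1) hx0.2
  rw [e2, e4] at hmiss
  have hmiss2 : (s - 2) * (s + 1) = (k + 1) * (k + 4) := by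
    subst hk
    have : k + 3 - 2 = k + 1 := by omega
    rw [this]
  rw [hmiss2] at hmiss
  have hr1 : (k + 1) * (k + 4) + 2 * DD ≤ r := by omega
  have hr3 : 1 * 4 ≤ (k + 1) * (k + 4) := Nat.mul_le_mul (by omega) (by omega)
  have hr2 : 2 ≤ r := by omega
  have hdeg := hdegA hr2
  have hERs : E G Rs R ≤ Y0.card := by
    rw [E_symm]
    unfold E
    rw [hY0, card_filter]
    apply sum_le_sum
    intro y hy
    split_ifs with h
    · unfold dg
      rw [card_le_one]
      intro a ha b hb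
      rw [mem_filter, hRs, mem_filter] at ha hb
      exact star_unique hN hs hd hD hno ha.1.1 (hRD _ ha.1.1) hy (hRD _ hy) hb.1.1 (hRD _ hb.1.1)
        ha.1.2 hb.1.2 ha.2 hb.2
    · unfold dg
      rw [Nat.le_zero, card_eq_zero, filter_eq_empty_iff]
      intro a ha hya
      rw [hRs, mem_filter] at ha
      exact h (nbr_of_star hN hs hd hD hno ha.1 (hRD _ ha.1) hy (hRD _ hy) ha.2 hya.symm)
  have hRsc : Rs.card ≤ 2 * s - 2 + Y0.card := by
    have h1 : Rs.card ≤ (R.filter (fun x => s + 1 ≤ dg G x C)).card + E G Rs R := by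
      have h2 : (Rs.filter (fun x => s + 1 ≤ dg G x C)).card ≤ (R.filter (fun x => s + 1 ≤ dg G x C)).card :=
        card_le_card (filter_subset_filter _ (filter_subset _ _))
      refine le_trans ?_ (Nat.add_le_add_right h2 _)
      calc Rs.card = ∑ x ∈ Rs, 1 := card_eq_sum_ones _
        _ ≤ ∑ x ∈ Rs, ((if s + 1 ≤ dg G x C then 1 else 0) + dg G x R) := by
            apply sum_le_sum
            intro x hx
            rw [hRs, mem_filter] at hx
            have h3 := hdeg x hx.1
            rw [hA, dg_union G x hCDR, dg_union G x hDR, hx.2] at h3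
            split_ifs with h4
            · omega
            · omega
        _ = (Rs.filter (fun x => s + 1 ≤ dg G x C)).card + E G Rs R := by
            rw [sum_add_distrib, card_filter]
            rfl
    omega
  have hrY : r + Y0.card ≤ Rs.card + DD := by
    have q1 : r = ∑ x ∈ R, 1 := card_eq_sum_ones _
    have q2 : Y0.card = ∑ x ∈ R, (if dg G x D = 0 then 1 else 0) := card_filter _ _
    have q3 : Rs.card = ∑ x ∈ R, (if dg G x D = s - 1 then 1 else 0) := card_filter _ _
    rw [q1, q2, q3, hDD, ← sum_add_distrib, ← sum_add_distrib]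
    apply sum_le_sum
    intro x hx
    have := hle x hx
    split_ifs <;> omega
  have hfin : (k + 1) * (k + 4) + DD ≤ 2 * s - 2 := by omega
  have hk0 : k = 0 := num_k (DD := DD) (by omega)
  subst hk0
  have hDD0 : DD = 0 := by omega
  have hall : ∀ x ∈ R, s - 1 - dg G x D = 0 := by
    rw [hDD, sum_eq_zero_iff] at hDD0
    exact hDD0
  have hRR : Rs = R := by
    rw [hRs, filter_eq_self]
    intro x hx
    have h1 := hall x hx
    have h2 := hle x hx
    omega
  have hY00 : Y0.card = 0 := by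
    rw [hY0, card_eq_zero, filter_eq_empty_iff]
    intro x hx
    have h1 := hall x hx
    omega
  rw [hRR] at hERs
  omega

end

end Pool.Agent.MPd89fb5
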