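import Pool.Agent.Lib.MP_d89fb5_co.EG

set_option autoImplicit false

namespace Pool.Agent.MPd89fb5

open Finset
open scoped Classical

variable {V : Type}

/-- a set without consecutive elements and of maximal size in `ZMod (2 s - 1)` -/
lemma near_perfect {N s : ℕ} [NeZero N] (hs : 2 ≤ s) (hN : N = 2 * s - 1) (S : Finset (ZMod N))
    (hS : S.card = s - 1) (h : ∀ i ∈ S, i + 1 ∉ S) :
    ∃ z : ZMod N, z ∉ S ∧ z - 1 ∉ S ∧ ∀ p, p ≠ z → p ∈ S ∨ p - 1 ∈ S := by
  have h1 : Disjoint S (S.image (fun i => i + 1)) := by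
    rw [Finset.disjoint_left]
    intro a ha hb
    rw [mem_image] at hb
    obtain ⟨b, hb, rfl⟩ := hb
    exact h b hb ha
  have h2 : (S.image (fun i => i + 1)).card = S.card :=
    card_image_of_injective _ (add_left_injective 1)
  have h3 : ((S ∪ S.image (fun i => i + 1))ᶜ).card = 1 := by
    rw [card_compl, card_union_of_disjoint h1, h2, ZMod.card]
    omega
  obtain ⟨z, hz⟩ := card_eq_one.1 h3
  have hz' : ∀ p, p ∉ S ∪ S.image (fun i => i + 1) ↔ p = z := by
    intro p
    rw [← mem_compl, hz, mem_singleton]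
  have hmem : ∀ p : ZMod N, p ∈ S.image (fun i => i + 1) ↔ p - 1 ∈ S := by
    intro p
    rw [mem_image]
    constructor
    · rintro ⟨q, hq, rfl⟩
      rwa [add_sub_cancel_right]
    · intro hp
      exact ⟨p - 1, hp, sub_add_cancel _ _⟩
  refine ⟨z, ?_, ?_, ?_⟩
  · have := (hz' z).2 rfl
    rw [mem_union] at this
    push Not at this
    exact this.1
  · have := (hz' z).2 rfl
    rw [mem_union, hmem] at this
    push Not at this
    exact this.2
  · intro p hp
    have := mt (hz' p).1 hp
    rw [not_not, mem_union, hmem] at this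
    exact this

lemma arc_split {n : ℕ} (c : ZMod n → V) (a : ZMod n) {len t : ℕ} (h : t + 1 < len) :
    arc c a len = arc c a t ++ c (a + (t : ℕ)) :: c (a + (t : ℕ) + 1) :: arc c (a + (t : ℕ) + 2) (len - t - 2) := by
  have e : t + (2 + (len - t - 2)) = len := by omega
  have e1 : arc c a (t + (2 + (len - t - 2))) = arc c a len := by rw [e]
  rw [← e1, arc_append, arc_append]
  congr 1
  have e2 : arc c (a + (t : ℕ)) 2 = [c (a + (t : ℕ)), c (a + (t : ℕ) + 1)] := by
    simp [arc, List.range_succ]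
  rw [e2]
  simp

variable {G : SimpleGraph V} {N s : ℕ} [NeZero N]

section
variable {d : ZMod N → V} {D R : Finset V}

omit [NeZero N] in
lemma cast_pred_add (_hN2 : 2 ≤ N) (a : ZMod N) {t k : ℕ} (h : t + k = N) : a + (t : ZMod N) + (k : ZMod N) = a := by
  have h1 : ((t + k : ℕ) : ZMod N) = 0 := by rw [h]; exact ZMod.natCast_self _
  push_cast at h1
  rw [add_assoc, h1, add_zero]

/-- `x ∉ D` adjacent to `d p`, `d q`: then `d (p+1)` and `d (q+1)` are not adjacent -/
lemma succ_nonadj (hN : N = 2 * s - 1) (hs : 3 ≤ s) (hd : IsC G d) (hD : ∀ x, x ∈ D ↔ ∃ i, d i = x)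
    (hno : ∀ n S, S ⊆ D ∪ R → GC G n S → n < 2 * s) {x : V} (hxR : x ∈ R) (hxD : x ∉ D)
    {p q : ZMod N} (hpq : p ≠ q) (hp : G.Adj x (d p)) (hq : G.Adj x (d q)) :
    ¬ G.Adj (d (p + 1)) (d (q + 1)) := by
  intro hadj
  set t := (q - (p + 1)).val with ht
  have htN : t < N := ZMod.val_lt _
  have htq : p + 1 + (t : ZMod N) = q := by rw [ht, ZMod.natCast_zmod_val]; ring
  have ht1 : t + 1 < N := by
    rcases Nat.lt_or_ge (t + 1) N with h | h
    · exact h
    · exfalso
      have e : t + 1 = N := by omega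
      have := cast_pred_add (by omega) p e
      apply hpq
      rw [← htq, add_assoc, add_comm (1 : ZMod N), ← add_assoc]
      push_cast at this
      exact this.symm
  have hlast : (arc d (p + 1) N).getLast? = some (d p) := by
    rw [arc_getLast? _ _ (by omega)]
    congr 2
    have := cast_pred_add (by omega) p (show N - 1 + 1 = N by omega)
    push_cast at this
    rw [add_assoc, add_comm (1 : ZMod N), ← add_assoc]
    exact this
  have hnd : (arc d (p + 1) N ++ [x]).Nodup := by
    rw [List.nodup_append]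
    refine ⟨hd.arc_nodup _ le_rfl, by simp, ?_⟩
    intro a ha b hb
    rw [List.mem_singleton] at hb
    subst hb
    rintro rfl
    rw [mem_arc_full (by omega), ← hD] at ha
    exact hxD ha
  have hch : (arc d (p + 1) N ++ [x]).IsChain G.Adj := by
    rw [List.isChain_append]
    refine ⟨hd.arc_chain _ (by omega), by simp, ?_⟩
    rw [hlast]
    simpa using hp.symm
  have h1 := ham_cross (PP := arc d (p + 1) N ++ [x]) (a := d (p + 1)) (b := x) hnd hch
    (by rw [List.head?_append_of_ne_nil _ (arc_ne_nil _ _ (by omega)), arc_head? _ _ (by omega)])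
    (by rw [List.getLast?_append_of_ne_nil _ (by simp)]; rfl)
    (l₁ := arc d (p + 1) t) (l₂ := arc d (q + 2) (N - t - 2) ++ [x]) (x := d q) (y := d (q + 1)) (by
      rw [arc_split d (p + 1) ht1, htq]; simp) hq hadj
  have h2 := hno _ _ ?_ (h1.toGC rfl)
  · simp only [List.length_append, List.length_reverse, List.length_cons, List.length_nil, arc_length] at h2
    omega
  · intro w hw
    rw [List.mem_toFinset] at hw
    have hw2 : w ∈ arc d (p + 1) N ++ [x] := by
      rw [arc_split d (p + 1) ht1, htq]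
      simp only [List.mem_append, List.mem_reverse, List.mem_cons, List.not_mem_nil, or_false] at hw ⊢
      tauto
    rw [List.mem_append, mem_arc_full (by omega), ← hD, List.mem_singleton] at hw2
    rw [mem_union]
    rcases hw2 with h | h
    · exact Or.inl h
    · right; rw [h]; exact hxR

lemma pred_nonadj (hN : N = 2 * s - 1) (hs : 3 ≤ s) (hd : IsC G d) (hD : ∀ x, x ∈ D ↔ ∃ i, d i = x)
    (hno : ∀ n S, S ⊆ D ∪ R → GC G n S → n < 2 * s) {x : V} (hxR : x ∈ R) (hxD : x ∉ D)
    {p q : ZMod N} (hpq : p ≠ q) (hp : G.Adj x (d p)) (hq : G.Adj x (d q)) :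
    ¬ G.Adj (d (p - 1)) (d (q - 1)) := by
  intro hadj
  set t := (q - 1 - p).val with ht
  have htN : t < N := ZMod.val_lt _
  have htq : p + (t : ZMod N) = q - 1 := by rw [ht, ZMod.natCast_zmod_val]; ring
  have ht1 : t + 1 < N := by
    rcases Nat.lt_or_ge (t + 1) N with h | h
    · exact h
    · exfalso
      have e : t + 1 = N := by omega
      have := cast_pred_add (by omega) p e
      apply hpq
      rw [htq] at this
      push_cast at this
      rw [sub_add_cancel] at this
      exact this.symm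
  have hlast : (arc d p N).getLast? = some (d (p - 1)) := by
    rw [arc_getLast? _ _ (by omega)]
    congr 2
    have := cast_pred_add (by omega) p (show N - 1 + 1 = N by omega)
    push_cast at this
    exact eq_sub_of_add_eq this
  have hnd : (x :: arc d p N).Nodup := by
    rw [List.nodup_cons]
    refine ⟨?_, hd.arc_nodup _ le_rfl⟩
    rw [mem_arc_full (by omega), ← hD]
    exact hxD
  have hch : (x :: arc d p N).IsChain G.Adj := by
    rw [List.isChain_cons]
    refine ⟨?_, hd.arc_chain _ (by omega)⟩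
    rw [arc_head? _ _ (by omega)]
    simpa using hp
  have h1 := ham_cross (PP := x :: arc d p N) (a := x) (b := d (p - 1)) hnd hch
    rfl
    (by rw [List.getLast?_cons_of_ne_nil (arc_ne_nil _ _ (by omega)), hlast])
    (l₁ := x :: arc d p t) (l₂ := arc d (q + 1) (N - t - 2)) (x := d (q - 1)) (y := d q) (by
      rw [arc_split d p ht1, htq, sub_add_cancel]
      have : q - 1 + 2 = q + 1 := by ring
      rw [this]; simp) hadj hq
  have h2 := hno _ _ ?_ (h1.toGC rfl)
  · simp only [List.length_append, List.length_reverse, List.length_cons, List.length_nil, arc_length] at h2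
    omega
  · intro w hw
    rw [List.mem_toFinset] at hw
    have hw2 : w ∈ x :: arc d p N := by
      rw [arc_split d p ht1, htq, sub_add_cancel]
      have : q - 1 + 2 = q + 1 := by ring
      rw [this]
      simp only [List.mem_append, List.mem_reverse, List.mem_cons, List.not_mem_nil, or_false] at hw ⊢
      tauto
    rw [List.mem_cons, mem_arc_full (by omega), ← hD] at hw2
    rw [mem_union]
    rcases hw2 with h | h
    · right; rw [h]; exact hxR
    · exact Or.inl h

omit [NeZero N] in
/-- `x ~ y` outside `D`, `x ~ d (p + t)`, `y ~ d p` with `t = 1` or `2` is impossible -/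
lemma two_ext (hN : N = 2 * s - 1) (hs : 3 ≤ s) (hd : IsC G d) (hD : ∀ x, x ∈ D ↔ ∃ i, d i = x)
    (hno : ∀ n S, S ⊆ D ∪ R → GC G n S → n < 2 * s) {x y : V} (hxR : x ∈ R) (hxD : x ∉ D)
    (hyR : y ∈ R) (hyD : y ∉ D) (hxy : G.Adj x y) {p : ZMod N} {t : ℕ} (ht1 : 1 ≤ t) (ht2 : t ≤ 2)
    (hx : G.Adj x (d (p + (t : ℕ)))) (hy : G.Adj y (d p)) : False := by
  have hlast : (arc d (p + (t : ℕ)) (N - t + 1)).getLast? = some (d p) := by
    rw [arc_getLast? _ _ (by omega), Nat.add_sub_cancel,
      cast_pred_add (by omega) p (show t + (N - t) = N by omega)]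
  have hxa : x ∉ arc d (p + (t : ℕ)) (N - t + 1) := by
    intro h
    rw [mem_arc] at h
    obtain ⟨i, _, hi⟩ := h
    exact hxD ((hD _).2 ⟨_, hi⟩)
  have hya : y ∉ arc d (p + (t : ℕ)) (N - t + 1) := by
    intro h
    rw [mem_arc] at h
    obtain ⟨i, _, hi⟩ := h
    exact hyD ((hD _).2 ⟨_, hi⟩)
  have h1 : CL G (y :: x :: arc d (p + (t : ℕ)) (N - t + 1)) := by
    refine CL_of_path (y := x) (w := d p) ?_ ?_ rfl ?_ ?_ hxy.symm hy
    · rw [List.nodup_cons]
      exact ⟨hxa, hd.arc_nodup _ (by omega)⟩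
    · rw [List.isChain_cons]
      refine ⟨?_, hd.arc_chain _ (by omega)⟩
      rw [arc_head? _ _ (by omega)]
      simpa using hx
    · rw [List.getLast?_cons_of_ne_nil (arc_ne_nil _ _ (by omega)), hlast]
    · rw [List.mem_cons]; push Not; exact ⟨hxy.ne', hya⟩
  have h2 := hno _ _ ?_ (h1.toGC rfl)
  · simp only [List.length_cons, arc_length] at h2
    omega
  · intro w hw
    rw [List.mem_toFinset, List.mem_cons, List.mem_cons, mem_arc] at hw
    rw [mem_union]
    rcases hw with h | h | ⟨i, _, h⟩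
    · right; rw [h]; exact hyR
    · right; rw [h]; exact hxR
    · left; exact (hD _).2 ⟨_, h⟩

omit [NeZero N] in
/-- `x ~ y ~ x'` outside `D`, `x ~ d (p + t)`, `x' ~ d p` with `1 ≤ t ≤ 3` is impossible -/
lemma three_ext (hN : N = 2 * s - 1) (hs : 3 ≤ s) (hd : IsC G d) (hD : ∀ x, x ∈ D ↔ ∃ i, d i = x)
    (hno : ∀ n S, S ⊆ D ∪ R → GC G n S → n < 2 * s) {x y x' : V} (hxR : x ∈ R) (hxD : x ∉ D)
    (hyR : y ∈ R) (hyD : y ∉ D) (hxR' : x' ∈ R) (hxD' : x' ∉ D) (hne : x ≠ x')
    (hxy : G.Adj x y) (hxy' : G.Adj x' y) {p : ZMod N} {t : ℕ} (ht1 : 1 ≤ t) (ht2 : t ≤ 3)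
    (hx : G.Adj x (d (p + (t : ℕ)))) (hy : G.Adj x' (d p)) : False := by
  have hlast : (arc d (p + (t : ℕ)) (N - t + 1)).getLast? = some (d p) := by
    rw [arc_getLast? _ _ (by omega), Nat.add_sub_cancel,
      cast_pred_add (by omega) p (show t + (N - t) = N by omega)]
  have hnota : ∀ w, w ∉ D → w ∉ arc d (p + (t : ℕ)) (N - t + 1) := by
    intro w hw h
    rw [mem_arc] at h
    obtain ⟨i, _, hi⟩ := h
    exact hw ((hD _).2 ⟨_, hi⟩)
  have h1 : CL G (x' :: y :: x :: arc d (p + (t : ℕ)) (N - t + 1)) := by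
    refine CL_of_path (y := y) (w := d p) ?_ ?_ rfl ?_ ?_ hxy' hy
    · rw [List.nodup_cons, List.nodup_cons, List.mem_cons]
      push Not
      exact ⟨⟨hxy.ne', hnota _ hyD⟩, hnota _ hxD, hd.arc_nodup _ (by omega)⟩
    · rw [List.isChain_cons_cons, List.isChain_cons]
      refine ⟨hxy.symm, ?_, hd.arc_chain _ (by omega)⟩
      rw [arc_head? _ _ (by omega)]
      simpa using hx
    · rw [List.getLast?_cons_of_ne_nil (by simp),
        List.getLast?_cons_of_ne_nil (arc_ne_nil _ _ (by omega)), hlast]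
    · rw [List.mem_cons, List.mem_cons]; push Not; exact ⟨hxy'.ne, hne.symm, hnota _ hxD'⟩
  have h2 := hno _ _ ?_ (h1.toGC rfl)
  · simp only [List.length_cons, arc_length] at h2
    omega
  · intro w hw
    rw [List.mem_toFinset, List.mem_cons, List.mem_cons, List.mem_cons, mem_arc] at hw
    rw [mem_union]
    rcases hw with h | h | h | ⟨i, _, h⟩
    · right; rw [h]; exact hxR'
    · right; rw [h]; exact hyR
    · right; rw [h]; exact hxR
    · left; exact (hD _).2 ⟨_, h⟩

end

end Pool.Agent.MPd89fb5
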