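import Pool.Agent.Lib.MP_d89fb5_co.K2a

set_option autoImplicit false

namespace Pool.Agent.MPd89fb5

open Finset
open scoped Classical

variable {V : Type}

section
variable {G : SimpleGraph V} {N s : ℕ} [NeZero N] {d : ZMod N → V} {D R : Finset V}

lemma pos_no_consec (hN : N = 2 * s - 1) (hs : 3 ≤ s) (hd : IsC G d) (hD : ∀ x, x ∈ D ↔ ∃ i, d i = x)
    (hno : ∀ n S, S ⊆ D ∪ R → GC G n S → n < 2 * s) {x : V} (hxR : x ∈ R) (hxD : x ∉ D) :
    ∀ i ∈ pos G d x, i + 1 ∉ pos G d x := by
  intro i hi hi'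
  rw [mem_pos] at hi hi'
  have h1 := hd.insert (by omega) hD hxD hi hi'
  have h2 := hno _ _ (by
    intro y hy
    rw [mem_insert] at hy
    rw [mem_union]
    rcases hy with rfl | hy
    · exact Or.inr hxR
    · exact Or.inl hy) h1
  omega

lemma dg_le_pred (hN : N = 2 * s - 1) (hs : 3 ≤ s) (hd : IsC G d) (hD : ∀ x, x ∈ D ↔ ∃ i, d i = x)
    (hno : ∀ n S, S ⊆ D ∪ R → GC G n S → n < 2 * s) {x : V} (hxR : x ∈ R) (hxD : x ∉ D) :
    dg G x D ≤ s - 1 := by
  rw [dg_eq_pos hd.inj hD]
  have := count_no_consec _ (pos_no_consec hN hs hd hD hno hxR hxD)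
  omega

lemma E_eq_sum (hd : IsC G d) (hD : ∀ x, x ∈ D ↔ ∃ i, d i = x) :
    E G D D = ∑ p : ZMod N, ∑ q : ZMod N, if G.Adj (d p) (d q) then 1 else 0 := by
  unfold E
  have : D = univ.image d := by
    ext x; rw [hD, mem_image]; simp
  conv_lhs => rw [this]
  rw [sum_image (fun i _ j _ h => hd.inj h)]
  apply sum_congr rfl
  intro p _
  rw [← this, dg_eq_pos hd.inj hD, pos, card_filter]

lemma miss_bound (hN : N = 2 * s - 1) (hs : 3 ≤ s) (hd : IsC G d) (hD : ∀ x, x ∈ D ↔ ∃ i, d i = x)
    (hno : ∀ n S, S ⊆ D ∪ R → GC G n S → n < 2 * s) {x : V} (hxR : x ∈ R) (hxD : x ∉ D)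
    (hdx : dg G x D = s - 1) : E G D D + (s - 2) * (s + 1) ≤ N * (N - 1) := by
  set S := pos G d x with hS
  have hSc : S.card = s - 1 := by rw [← hdx, dg_eq_pos hd.inj hD]
  have hScons := pos_no_consec hN hs hd hD hno hxR hxD
  obtain ⟨z, hz1, hz2, hz3⟩ := near_perfect (by omega) hN S hSc hScons
  have hz4 : z + 1 ∈ S := by
    rcases hz3 (z + 1) (succ_ne (by omega) z) with h | h
    · exact h
    · rw [add_sub_cancel_right] at h; exact absurd h hz1
  set S1 := S.image (fun i => i + 1) with hS1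
  set S2 := S.image (fun i => i - 1) with hS2
  set B := S2.erase z with hB
  have hS1c : S1.card = s - 1 := by
    rw [hS1, card_image_of_injective _ (add_left_injective 1), hSc]
  have hS2c : S2.card = s - 1 := by
    rw [hS2, card_image_of_injective _ (sub_left_injective), hSc]
  have hzS2 : z ∈ S2 := mem_image.2 ⟨z + 1, hz4, add_sub_cancel_right _ _⟩
  have hzS1 : z ∉ S1 := by
    intro h
    rw [hS1, mem_image] at h
    obtain ⟨i, hi, rfl⟩ := h
    rw [add_sub_cancel_right] at hz2
    exact hz2 hi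
  have hBc : B.card = s - 2 := by
    rw [hB, card_erase_of_mem hzS2, hS2c]; omega
  have hzB : z ∉ B := notMem_erase _ _
  have hS1na : ∀ p ∈ S1, ∀ q ∈ S1, p ≠ q → ¬ G.Adj (d p) (d q) := by
    intro p hp q hq hpq
    rw [hS1, mem_image] at hp hq
    obtain ⟨p, hp, rfl⟩ := hp
    obtain ⟨q, hq, rfl⟩ := hq
    exact succ_nonadj hN hs hd hD hno hxR hxD (fun h => hpq (by rw [h])) (mem_pos.1 hp) (mem_pos.1 hq)
  have hS2na : ∀ p ∈ S2, ∀ q ∈ S2, p ≠ q → ¬ G.Adj (d p) (d q) := by
    intro p hp q hq hpq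
    rw [hS2, mem_image] at hp hq
    obtain ⟨p, hp, rfl⟩ := hp
    obtain ⟨q, hq, rfl⟩ := hq
    exact pred_nonadj hN hs hd hD hno hxR hxD (fun h => hpq (by rw [h])) (mem_pos.1 hp) (mem_pos.1 hq)
  set NA : Finset (ZMod N × ZMod N) := S1.offDiag ∪ ({z} ×ˢ B ∪ B ×ˢ {z}) with hNA
  have hNAc : NA.card = (s - 2) * (s + 1) := by
    rw [hNA, card_union_of_disjoint, card_union_of_disjoint, card_product, card_product, offDiag_card,
      card_singleton, hBc, hS1c]
    · obtain ⟨k, rfl⟩ : ∃ k, s = k + 3 := ⟨s - 3, by omega⟩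
      have e1 : k + 3 - 1 = k + 2 := by omega
      have e2 : k + 3 - 2 = k + 1 := by omega
      rw [e1, e2]
      have e3 : (k + 2) * (k + 2) - (k + 2) = (k + 2) * (k + 1) := by
        have : (k + 2) * (k + 2) = (k + 2) * (k + 1) + (k + 2) := by ring
        omega
      rw [e3]
      ring
    · rw [Finset.disjoint_left]
      rintro ⟨p, q⟩ h1 h2
      rw [mem_product] at h1 h2
      simp only [mem_singleton] at h1 h2
      exact hzB (h1.1 ▸ h2.1)
    · rw [Finset.disjoint_left]
      rintro ⟨p, q⟩ h1 h2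
      rw [mem_offDiag] at h1
      rw [mem_union, mem_product, mem_product] at h2
      simp only [mem_singleton] at h1 h2
      rcases h2 with h2 | h2
      · exact hzS1 (h2.1 ▸ h1.1)
      · exact hzS1 (h2.2 ▸ h1.2.1)
  have hNAna : ∀ p q, (p, q) ∈ NA → p ≠ q ∧ ¬ G.Adj (d p) (d q) := by
    intro p q hpq
    rw [hNA, mem_union, mem_union, mem_product, mem_product, mem_offDiag] at hpq
    simp only [mem_singleton] at hpq
    rcases hpq with h | h | h
    · exact ⟨h.2.2, hS1na p h.1 q h.2.1 h.2.2⟩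
    · obtain ⟨rfl, h2⟩ := h
      have h3 := mem_erase.1 h2
      exact ⟨h3.1.symm, hS2na _ hzS2 _ h3.2 h3.1.symm⟩
    · obtain ⟨h2, rfl⟩ := h
      have h3 := mem_erase.1 h2
      exact ⟨h3.1, hS2na _ h3.2 _ hzS2 h3.1⟩
  have hNAsum : NA.card = ∑ p : ZMod N, ∑ q : ZMod N, if (p, q) ∈ NA then 1 else 0 := by
    rw [← sum_product', univ_product_univ, ← card_filter, filter_mem_eq_inter, univ_inter]
  rw [← hNAc, E_eq_sum hd hD, hNAsum, ← sum_add_distrib]
  calc ∑ p : ZMod N, (∑ q : ZMod N, (if G.Adj (d p) (d q) then 1 else 0) +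
        ∑ q : ZMod N, (if (p, q) ∈ NA then 1 else 0))
      ≤ ∑ p : ZMod N, (N - 1) := by
        apply sum_le_sum
        intro p _
        rw [← sum_add_distrib]
        calc ∑ q : ZMod N, ((if G.Adj (d p) (d q) then 1 else 0) + (if (p, q) ∈ NA then 1 else 0))
            ≤ ∑ q : ZMod N, (if q ≠ p then 1 else 0) := by
              apply sum_le_sum
              intro q _
              by_cases h1 : (p, q) ∈ NA
              · have h2 := hNAna p q h1
                rw [if_pos h1, if_neg h2.2, if_pos h2.1.symm]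
              · rw [if_neg h1]
                split_ifs with h3 h4
                · simp
                · push Not at h4
                  subst h4
                  exact absurd h3 (G.irrefl)
                · simp
                · simp
          _ = N - 1 := by
              rw [← card_filter, filter_ne', card_erase_of_mem (mem_univ _), card_univ, ZMod.card]
    _ = N * (N - 1) := by
        rw [sum_const, card_univ, ZMod.card, smul_eq_mul]

end

end Pool.Agent.MPd89fb5
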