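import Pool.Agent.Lib.MP_d89fb5_co.Conf

set_option autoImplicit false

namespace Pool.Agent.MPd89fb5

open Finset
open scoped Classical

variable {V : Type}

lemma Conf.sdiff {G : SimpleGraph V} {s j : ℕ} {A : Finset V} (cf : Conf G s j A) :
    A \ cf.C = cf.D ∪ (cf.R ∪ cf.U) :=
  calc A \ cf.C = (cf.C ∪ (cf.D ∪ (cf.R ∪ cf.U))) \ cf.C := congrArg (· \ cf.C) cf.hA
    _ = _ := union_sdiff_cancel_left cf.dC

lemma Conf.bound {G : SimpleGraph V} {s j k : ℕ} {A : Finset V} (cf : Conf G s j A) (hs : 3 ≤ s)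
    (hj : 1 ≤ j) (hjk : j + 1 ≤ k) (hE : 2 * (s * k - 1) * A.card ≤ E G A A) :
    2 * (s * (k - 1) - 1) * (A.card - 2 * s) ≤ E G (A \ cf.C) (A \ cf.C) := by
  have hCc := cf.gcC.card
  have h1 : E G A A = E G cf.C cf.C + 2 * (E G cf.C cf.D + E G cf.C cf.R + E G cf.C cf.U)
      + E G (A \ cf.C) (A \ cf.C) := by
    rw [cf.sdiff]
    conv_lhs => rw [cf.hA]
    rw [E_self_union G cf.dC, E_union_right G cf.C cf.dD, E_union_right G cf.C cf.dR]
    ring
  have h2 := E_self_le G cf.C
  have h5 := E_le G cf.C cf.U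
  rw [hCc] at h2 h5
  rw [cf.cardU] at h5
  exact step_num (by omega) hj hjk cf.l_le cf.φ_le h1 h2 cf.φ2 cf.φ1 h5 hE cf.cardA

lemma two_pack {G : SimpleGraph V} {s n n' : ℕ} {A S S' : Finset V} (hn : 2 * s ≤ n) (hn' : 2 * s ≤ n')
    (hS : GC G n S) (hS' : GC G n' S') (hSA : S ⊆ A) (hSA' : S' ⊆ A) (hd : Disjoint S S') :
    ∃ P, Pack (Long G s) 2 A P := by
  have h0 : Pack (Long G s) 0 A ∅ := ⟨by simp, by simp, by simp, by simp⟩
  have h1 := h0.insert hSA ⟨n, hn, hS⟩ hS.nonempty (by simp)
  have h2 := h1.insert hSA' ⟨n', hn', hS'⟩ hS'.nonempty (by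
    intro T hT
    rw [mem_insert] at hT
    rcases hT with rfl | hT
    · exact hd.symm
    · simp at hT)
  exact ⟨_, h2⟩

lemma conf_false_two {G : SimpleGraph V} {s : ℕ} {A : Finset V} (cf : Conf G s 1 A) (hs : 3 ≤ s)
    (hA : 2 * s * 2 ≤ A.card)
    (hE : 2 * (s * 2 - 1) * A.card ≤ E G A A) (hnp : ¬ ∃ P, Pack (Long G s) 2 A P)
    (hdeg : 2 * s * 2 < A.card → ∀ v ∈ A, 2 * s ≤ dg G v A) : False := by
  have hb := cf.bound hs le_rfl (le_refl 2) hE
  have hU : cf.U = ∅ := by
    rw [← card_eq_zero, cf.cardU]; simp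
  have hCc := cf.gcC.card
  have hlpos := cf.l_pos
  have : NeZero cf.l := ⟨by omega⟩
  have hsd := cf.sdiff
  rw [hU, union_empty] at hsd
  have hA' := cf.hA
  have hdC := cf.dC
  have hdD := cf.dD
  rw [hU, union_empty] at hA' hdC hdD
  have hcA := cf.cardA
  have hDRA : cf.D ∪ cf.R ⊆ A := by rw [← hsd]; exact sdiff_subset
  have hCA : cf.C ⊆ A := by
    intro x hx
    rw [hA']; exact mem_union_left _ hx
  have hno : ∀ n S, S ⊆ cf.D ∪ cf.R → GC G n S → n < 2 * s := by
    intro n S hS hG
    by_contra hcon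
    push Not at hcon
    exact hnp (two_pack le_rfl hcon cf.gcC hG hCA (hS.trans hDRA) (Finset.disjoint_of_subset_right hS hdC))
  have hlle := cf.l_le
  have hDc : cf.D.card = cf.l := by
    have : cf.D = univ.image cf.d := by
      ext x; rw [cf.memD, mem_image]; simp
    rw [this, card_image_of_injective _ cf.isC.inj, card_univ, ZMod.card]
  rcases Nat.lt_or_ge cf.l (2 * s - 1) with hl | hl
  · -- Erdős–Gallai
    have hcard : (cf.D ∪ cf.R).card = A.card - 2 * s := by
      rw [card_union_of_disjoint hdD, hDc]; omega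
    have h1 := EG G (2 * s - 2) (by omega) (cf.D ∪ cf.R) (card_pos.1 (by omega)) (by
      intro n S hS hG _
      have h2 := hno n S hS hG
      have h3 := cf.hmax n S hS hG (by omega)
      omega)
    rw [hsd] at hb
    rw [hcard] at h1
    have e1 : 2 * (s * (2 - 1) - 1) = 2 * s - 2 := by omega
    rw [e1] at hb
    have h4 := hb.trans h1
    have h5 : (2 * s - 2) * (A.card - 2 * s - 1) < (2 * s - 2) * (A.card - 2 * s) :=
      Nat.mul_lt_mul_of_pos_left (by omega) (by omega)
    omega
  · have hl' : cf.l = 2 * s - 1 := by omega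
    have hc0C := cf.c0C
    have hc0D : cf.c0 ∉ cf.D := fun h => Finset.disjoint_left.1 hdC hc0C (mem_union_left _ h)
    obtain ⟨p, hp1, hp2⟩ := cf.c0T
    have hins := cf.isC.insert (by omega) cf.memD hc0D hp1 hp2
    rw [hl'] at hins
    have e1 : 2 * s - 1 + 1 = 2 * s := by omega
    rw [e1] at hins
    have hno2 : ∀ n S, S ⊆ cf.C.erase cf.c0 ∪ cf.R → GC G n S → n < 2 * s := by
      intro n S hS hG
      by_contra hcon
      push Not at hcon
      refine hnp (two_pack le_rfl hcon hins hG ?_ ?_ ?_)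
      · intro y hy
        rw [mem_insert] at hy
        rcases hy with rfl | hy
        · exact hCA hc0C
        · exact hDRA (mem_union_left _ hy)
      · intro y hy
        have := hS hy
        rw [mem_erase_union] at this
        rcases this with h | h
        · exact hCA h.1
        · exact hDRA (mem_union_right _ h)
      · rw [Finset.disjoint_left]
        intro y hy hyS
        have := hS hyS
        rw [mem_erase_union] at this
        rw [mem_insert] at hy
        rcases hy with rfl | hy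
        · rcases this with h | h
          · exact h.2 rfl
          · exact Finset.disjoint_left.1 hdC hc0C (mem_union_right _ h)
        · rcases this with h | h
          · exact Finset.disjoint_left.1 hdC h.1 (mem_union_left _ hy)
          · exact Finset.disjoint_left.1 hdD hy h
    refine K2 (N := cf.l) (s := s) (R := cf.R) hl' hs cf.isC cf.memD hA' hdC hdD hCc cf.φ1 cf.φ2 cf.φ3 ?_ ?_ ?_
      hno hc0C hno2
    · have : 2 * s - 1 = s * 2 - 1 := by omega
      rw [this]; exact hE
    · intro hR x hx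
      exact hdeg (by omega) x (hDRA (mem_union_right _ hx))
    · omega

lemma conf_false_three {G : SimpleGraph V} {s j k : ℕ} {A : Finset V} (cf : Conf G s j A) (hs : 3 ≤ s)
    (hj : 1 ≤ j) (hjk : j + 1 ≤ k + 1) (hA : 2 * s * (k + 1) ≤ A.card)
    (hE : 2 * (s * (k + 1) - 1) * A.card ≤ E G A A) (hnp : ¬ ∃ P, Pack (Long G s) (k + 1) A P)
    (ih : ∀ B : Finset V, 2 * s * k ≤ B.card → 2 * (s * k - 1) * B.card ≤ E G B B →
      ∃ P, Pack (Long G s) k B P) : False := by
  have hb := cf.bound hs hj hjk hE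
  have hCc := cf.gcC.card
  have hCA : cf.C ⊆ A := by
    intro x hx
    rw [cf.hA]; exact mem_union_left _ hx
  have hcard : (A \ cf.C).card = A.card - 2 * s := by
    rw [card_sdiff_of_subset hCA, hCc]
  rw [Nat.add_sub_cancel, ← hcard] at hb
  obtain ⟨P, hP⟩ := ih (A \ cf.C) (by
    rw [hcard]
    have : 2 * s * (k + 1) = 2 * s * k + 2 * s := by ring
    omega) hb
  apply hnp
  refine ⟨_, (hP.mono sdiff_subset).insert hCA ⟨2 * s, le_rfl, cf.gcC⟩ cf.gcC.nonempty ?_⟩
  intro T hT
  exact (Finset.disjoint_of_subset_left (hP.sub T hT) sdiff_disjoint).symm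

lemma inner (s : ℕ) (hs : 3 ≤ s) (k : ℕ) (hk : 2 ≤ k)
    (hexp : ∀ (G : SimpleGraph V) (A : Finset V), 2 * s * k ≤ A.card → 2 * (s * k - 1) * A.card ≤ E G A A →
      (¬ ∃ P, Pack (Long G s) k A P) → (2 * s * k < A.card → ∀ v ∈ A, s * k ≤ dg G v A) →
      ∀ j, 1 ≤ j → j < k → Conf G s j A → False) :
    ∀ (N : ℕ) (G : SimpleGraph V) (A : Finset V),
    A.card = N → 2 * s * k ≤ N → 2 * (s * k - 1) * N ≤ E G A A → ∃ P, Pack (Long G s) k A P := by
  have hsk : 2 * s ≤ s * k := by
    calc 2 * s = s * 2 := by ring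
      _ ≤ s * k := Nat.mul_le_mul_left _ hk
  have h2sk : 2 * s * k = 2 * (s * k) := by ring
  intro N
  induction N using Nat.strong_induction_on with
  | _ N ihN =>
  intro G A hAN hA hE
  by_contra hnp
  have hN1 : 2 * (s * k - 1) * N = 2 * (s * k - 1) * (N - 1) + 2 * (s * k - 1) := by
    have : N = (N - 1) + 1 := by omega
    conv_lhs => rw [this]
    ring
  -- degrees and codegrees
  have hdeg : ∀ v ∈ A, s * k - 1 ≤ dg G v A ∧ (2 * s * k < A.card → s * k ≤ dg G v A) := by
    intro v hv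
    have h1 := E_erase G hv
    have h2 := E_self_le G (A.erase v)
    have h3 : (A.erase v).card = N - 1 := by rw [card_erase_of_mem hv, hAN]
    rw [h3] at h2
    rcases Nat.lt_or_ge (2 * s * k) N with h | h
    · have h4 : s * k ≤ dg G v A := by
        by_contra hcon
        push Not at hcon
        obtain ⟨P, hP⟩ := ihN (N - 1) (by omega) G (A.erase v) h3 (by omega) (by omega)
        exact hnp ⟨P, hP.mono (erase_subset _ _)⟩
      exact ⟨by omega, fun _ => h4⟩
    · refine ⟨?_, fun h5 => absurd h5 (by omega)⟩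
      have h6 : N - 1 - 1 = 2 * (s * k - 1) := by omega
      rw [h6] at h2
      have h7 : (N - 1) * (2 * (s * k - 1)) = 2 * (s * k - 1) * (N - 1) := by ring
      omega
  have hcod : ∀ u ∈ A, ∀ v ∈ A, G.Adj u v → 2 * s - 2 ≤ cod G u v A := by
    intro u hu v hv huv
    have h1 := contr_E hu hv huv
    have h2 := E_self_le (contr G u v) (A.erase v)
    have h3 : (A.erase v).card = N - 1 := by rw [card_erase_of_mem hv, hAN]
    rw [h3] at h2
    rcases Nat.lt_or_ge (2 * s * k) N with h | h
    · by_contra hcon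
      push Not at hcon
      obtain ⟨P, hP⟩ := ihN (N - 1) (by omega) (contr G u v) (A.erase v) h3 (by omega) (by omega)
      exact hnp (hP.lift huv hs hv)
    · have h6 : N - 1 - 1 = 2 * (s * k - 1) := by omega
      rw [h6] at h2
      have h7 : (N - 1) * (2 * (s * k - 1)) = 2 * (s * k - 1) * (N - 1) := by ring
      omega
  have hex : ∀ j, j ≤ k → ∃ P, Pack (GC G (2 * s)) j A P := by
    intro j
    induction j with
    | zero => intro _; exact ⟨∅, by simp, by simp, by simp, by simp⟩
    | succ j ihj =>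
      intro hj
      by_contra hno
      obtain ⟨hj1, ⟨cf⟩⟩ := exists_config G hs (show j < k by omega) (by omega)
        (fun v hv => by have := (hdeg v hv).1; omega) hcod (ihj (by omega)) hno
      exact hexp G A (by omega) (by rw [hAN]; exact hE) hnp (fun h v hv => (hdeg v hv).2 h) j hj1 (by omega) cf
  obtain ⟨P, hP⟩ := hex k le_rfl
  exact hnp ⟨P, hP.card, hP.sub, fun S hS => ⟨2 * s, le_rfl, hP.good S hS⟩, hP.disj⟩

theorem main (s : ℕ) (hs : 3 ≤ s) : ∀ k, 2 ≤ k → ∀ (N : ℕ) (G : SimpleGraph V) (A : Finset V),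
    A.card = N → 2 * s * k ≤ N → 2 * (s * k - 1) * N ≤ E G A A → ∃ P, Pack (Long G s) k A P := by
  intro k hk
  induction k, hk using Nat.le_induction with
  | base =>
    apply inner s hs 2 le_rfl
    intro G A hA hE hnp hdeg j hj1 hj2 cf
    have : j = 1 := by omega
    subst this
    exact conf_false_two cf hs hA hE hnp (fun h v hv => by have := hdeg h v hv; omega)
  | succ k hk ihk =>
    apply inner s hs (k + 1) (by omega)
    intro G A hA hE hnp _ j hj1 hj2 cf
    exact conf_false_three cf hs hj1 (by omega) hA hE hnp (fun B hB hEB => ihk B.card G B rfl hB hEB)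

end Pool.Agent.MPd89fb5
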