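import Pool.Agent.Lib.MP_d89fb5_co.K2

set_option autoImplicit false

namespace Pool.Agent.MPd89fb5

open Finset
open scoped Classical

variable {V : Type}

structure Pack (Φ : Finset V → Prop) (j : ℕ) (A : Finset V) (P : Finset (Finset V)) : Prop where
  card : P.card = j
  sub : ∀ S ∈ P, S ⊆ A
  good : ∀ S ∈ P, Φ S
  disj : ∀ S ∈ P, ∀ T ∈ P, S ≠ T → Disjoint S T

lemma Pack.insert {Φ : Finset V → Prop} {j : ℕ} {A : Finset V} {P : Finset (Finset V)}
    (h : Pack Φ j A P) {S : Finset V} (hS : S ⊆ A) (hΦ : Φ S) (hne : S.Nonempty)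
    (hd : ∀ T ∈ P, Disjoint S T) : Pack Φ (j + 1) A (Insert.insert S P) := by
  have hSP : S ∉ P := by
    intro h1
    have := hd S h1
    rw [disjoint_self] at this
    exact hne.ne_empty this
  refine ⟨by rw [card_insert_of_notMem hSP, h.card], ?_, ?_, ?_⟩
  · intro T hT
    rw [mem_insert] at hT
    rcases hT with rfl | hT
    · exact hS
    · exact h.sub T hT
  · intro T hT
    rw [mem_insert] at hT
    rcases hT with rfl | hT
    · exact hΦ
    · exact h.good T hT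
  · intro T hT T' hT' hne'
    rw [mem_insert] at hT hT'
    rcases hT with rfl | hT <;> rcases hT' with rfl | hT'
    · exact absurd rfl hne'
    · exact hd T' hT'
    · exact (hd T hT).symm
    · exact h.disj T hT T' hT' hne'

lemma Pack.erase {Φ : Finset V → Prop} {j : ℕ} {A : Finset V} {P : Finset (Finset V)}
    (h : Pack Φ (j + 1) A P) {C : Finset V} (hC : C ∈ P) : Pack Φ j A (P.erase C) := by
  refine ⟨by rw [card_erase_of_mem hC, h.card]; rfl, ?_, ?_, ?_⟩
  · intro T hT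
    exact h.sub T (mem_erase.1 hT).2
  · intro T hT
    exact h.good T (mem_erase.1 hT).2
  · intro T hT T' hT' hne'
    exact h.disj T (mem_erase.1 hT).2 T' (mem_erase.1 hT').2 hne'

lemma Pack.mono {Φ : Finset V → Prop} {j : ℕ} {A B : Finset V} {P : Finset (Finset V)}
    (h : Pack Φ j A P) (hAB : A ⊆ B) : Pack Φ j B P :=
  ⟨h.card, fun S hS => (h.sub S hS).trans hAB, h.good, h.disj⟩

/-- a cycle with at least `2 s` vertices -/
def Long (G : SimpleGraph V) (s : ℕ) (S : Finset V) : Prop := ∃ n, 2 * s ≤ n ∧ GC G n S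

lemma Long.nonempty {G : SimpleGraph V} {s : ℕ} {S : Finset V} (h : Long G s S) : S.Nonempty := by
  obtain ⟨n, _, hG⟩ := h
  rw [← card_pos, hG.card]
  exact hG.pos

lemma GC.nonempty {G : SimpleGraph V} {n : ℕ} {S : Finset V} (h : GC G n S) : S.Nonempty := by
  rw [← card_pos, h.card]
  exact h.pos

lemma Pack.card_biUnion {G : SimpleGraph V} {s j : ℕ} {A : Finset V} {P : Finset (Finset V)}
    (h : Pack (GC G (2 * s)) j A P) : (P.biUnion id).card = 2 * s * j := by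
  have h1 : (P.biUnion id).card = ∑ S ∈ P, S.card :=
    Finset.card_biUnion (t := id) (fun x hx y hy hxy => h.disj x hx y hy hxy)
  rw [h1, sum_congr rfl (fun S hS => (h.good S hS).card), sum_const, h.card, smul_eq_mul]
  ring

lemma Pack.lift {G : SimpleGraph V} {u v : V} (huv : G.Adj u v) {s : ℕ} (hs : 3 ≤ s) {k : ℕ}
    {A : Finset V} (hv : v ∈ A) {P : Finset (Finset V)}
    (h : Pack (Long (contr G u v) s) k (A.erase v) P) : ∃ P', Pack (Long G s) k A P' := by
  have hvP : ∀ T ∈ P, v ∉ T := fun T hT h1 => (mem_erase.1 (h.sub T hT h1)).1 rfl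
  have hall : ∀ T ∈ P, u ∉ T → Long G s T := by
    intro T hT huT
    obtain ⟨n, hn, hG⟩ := h.good T hT
    rcases GC_lift huv (by omega) hG (hvP T hT) with h1 | h1
    · exact ⟨n, hn, h1.2⟩
    · exact absurd h1.1 huT
  by_cases hex : ∃ S ∈ P, u ∈ S
  · obtain ⟨S, hS, huS⟩ := hex
    obtain ⟨k', rfl⟩ : ∃ k', k = k' + 1 := by
      have := card_pos.2 ⟨S, hS⟩
      rw [h.card] at this
      exact ⟨k - 1, by omega⟩
    obtain ⟨n, hn, hG⟩ := h.good S hS
    obtain ⟨n', hn', S', hS', hG'⟩ : ∃ n' ≥ n, ∃ S' ⊆ Insert.insert v S, GC G n' S' := by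
      rcases GC_lift huv (by omega) hG (hvP S hS) with h1 | h1
      · exact absurd huS h1.1
      · exact h1.2
    have h2 := h.erase hS
    have h3 : Pack (Long G s) k' A (P.erase S) := by
      refine ⟨h2.card, fun T hT => (h2.sub T hT).trans (erase_subset _ _), ?_, h2.disj⟩
      intro T hT
      rw [mem_erase] at hT
      apply hall T hT.2
      intro huT
      exact Finset.disjoint_left.1 (h.disj T hT.2 S hS hT.1) huT huS
    refine ⟨_, h3.insert (S := S') ?_ ⟨n', by omega, hG'⟩ hG'.nonempty ?_⟩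
    · refine hS'.trans ?_
      intro x hx
      rw [mem_insert] at hx
      rcases hx with rfl | hx
      · exact hv
      · exact (mem_erase.1 (h.sub S hS hx)).2
    · intro T hT
      rw [mem_erase] at hT
      refine Finset.disjoint_of_subset_left hS' ?_
      rw [disjoint_insert_left]
      exact ⟨hvP T hT.2, h.disj S hS T hT.2 (Ne.symm hT.1)⟩
  · push Not at hex
    exact ⟨P, h.card, fun T hT => (h.sub T hT).trans (erase_subset _ _),
      fun T hT => hall T hT (hex T hT), h.disj⟩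

lemma step_num_int {s j k r l q φ ECC ECD ECR ECU EGC EAA : ℤ} (hs : 1 ≤ s)
    (hjk : j + 1 ≤ k) (hl2 : l ≤ 2 * s - 1) (hq : l ≤ 2 * q) (hφ0 : 0 ≤ φ) (hφ : φ ≤ 2 * s)
    (h1 : EAA = ECC + 2 * (ECD + ECR + ECU) + EGC) (h2 : ECC ≤ 2 * s * (2 * s - 1))
    (h3 : ECD + q * φ ≤ 2 * s * l) (h4 : ECR ≤ s * r + (s - 1) * φ)
    (h5 : ECU ≤ 2 * s * (2 * s * (j - 1))) (h6 : 2 * (s * k - 1) * (2 * s * j + l + r) ≤ EAA) :
    2 * (s * (k - 1) - 1) * (2 * s * (j - 1) + l + r) ≤ EGC := by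
  have key : (s - 1 - q) * φ ≤ 2 * (s * s) * (k - j) - s * (l + 1) := by
    have h0 : 2 * (s * s) ≤ 2 * (s * s) * (k - j) := by
      have : 0 ≤ 2 * (s * s) := by positivity
      nlinarith
    rcases le_total (s - 1 - q) 0 with h | h
    · have h7 : (s - 1 - q) * φ ≤ 0 := mul_nonpos_of_nonpos_of_nonneg h hφ0
      have h8 : s * (l + 1) ≤ s * (2 * s) := mul_le_mul_of_nonneg_left (by linarith) (by linarith)
      nlinarith
    · have h7 : (s - 1 - q) * φ ≤ (s - 1 - q) * (2 * s) := mul_le_mul_of_nonneg_left hφ h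
      have h8 : s * l ≤ s * (2 * q) := mul_le_mul_of_nonneg_left hq (by linarith)
      nlinarith
  have e : 2 * (s * k - 1) * (2 * s * j + l + r) - 2 * (s * (k - 1) - 1) * (2 * s * (j - 1) + l + r)
      - 2 * s * (2 * s - 1) - 2 * ((2 * s * l - q * φ) + (s * r + (s - 1) * φ) + 2 * s * (2 * s * (j - 1)))
      = 2 * (2 * (s * s) * (k - j) - s * (l + 1) - (s - 1 - q) * φ) := by ring
  linarith

lemma step_num {s j k r l φ ECC ECD ECR ECU EGC EAA n : ℕ} (hs : 1 ≤ s) (hj : 1 ≤ j)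
    (hjk : j + 1 ≤ k) (hl2 : l ≤ 2 * s - 1) (hφ : φ ≤ 2 * s)
    (h1 : EAA = ECC + 2 * (ECD + ECR + ECU) + EGC) (h2 : ECC ≤ 2 * s * (2 * s - 1))
    (h3 : ECD + (l - l / 2) * φ ≤ 2 * s * l) (h4 : ECR ≤ s * r + (s - 1) * φ)
    (h5 : ECU ≤ 2 * s * (2 * s * (j - 1))) (h6 : 2 * (s * k - 1) * n ≤ EAA)
    (hn : n = 2 * s * j + l + r) :
    2 * (s * (k - 1) - 1) * (n - 2 * s) ≤ EGC := by
  have hsk : 1 ≤ s * k := Nat.mul_pos (by omega) (by omega)
  have hsk2 : 1 ≤ s * (k - 1) := Nat.mul_pos (by omega) (by omega)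
  obtain ⟨j', rfl⟩ : ∃ j', j = j' + 1 := ⟨j - 1, by omega⟩
  obtain ⟨k', rfl⟩ : ∃ k', k = k' + 1 := ⟨k - 1, by omega⟩
  have e1 : n - 2 * s = 2 * s * j' + l + r := by
    rw [hn]
    have : 2 * s * (j' + 1) = 2 * s * j' + 2 * s := by ring
    omega
  rw [e1]
  rw [Nat.add_sub_cancel] at h5 hsk2 ⊢
  have hh := step_num_int (s := s) (j := j' + 1) (k := k' + 1) (r := r) (l := l) (q := ((l - l / 2 : ℕ) : ℤ))
    (φ := φ) (ECC := ECC) (ECD := ECD) (ECR := ECR) (ECU := ECU) (EGC := EGC) (EAA := EAA)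
    (by exact_mod_cast hs) (by exact_mod_cast hjk) (by omega) (by omega) (by positivity)
    (by exact_mod_cast hφ) (by exact_mod_cast h1) (by
      have : ((2 * s * (2 * s - 1) : ℕ) : ℤ) = 2 * (s : ℤ) * (2 * s - 1) := by
        rw [Nat.cast_mul, Nat.cast_sub (by omega)]; push_cast; ring
      rw [← this]; exact_mod_cast h2) (by exact_mod_cast h3) (by
      have : ((s * r + (s - 1) * φ : ℕ) : ℤ) = (s : ℤ) * r + (s - 1) * φ := by
        rw [Nat.cast_add, Nat.cast_mul, Nat.cast_mul, Nat.cast_sub hs]; push_cast; ring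
      rw [← this]; exact_mod_cast h4) (by
      have : ((2 * s * (2 * s * j') : ℕ) : ℤ) = 2 * (s : ℤ) * (2 * s * ((j' : ℤ) + 1 - 1)) := by
        push_cast; ring
      rw [← this]; exact_mod_cast h5) (by
      have : ((2 * (s * (k' + 1) - 1) * n : ℕ) : ℤ) =
          2 * ((s : ℤ) * ((k' : ℤ) + 1) - 1) * (2 * s * ((j' : ℤ) + 1) + l + r) := by
        rw [Nat.cast_mul, Nat.cast_mul, Nat.cast_sub hsk, hn]; push_cast; ring
      rw [← this]; exact_mod_cast h6)
  have : ((2 * (s * k' - 1) * (2 * s * j' + l + r) : ℕ) : ℤ) =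
      2 * ((s : ℤ) * ((k' : ℤ) + 1 - 1) - 1) * (2 * s * ((j' : ℤ) + 1 - 1) + l + r) := by
    rw [Nat.cast_mul, Nat.cast_mul, Nat.cast_sub hsk2]; push_cast; ring
  rw [← this] at hh
  exact_mod_cast hh

end Pool.Agent.MPd89fb5
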